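import Mathlib

set_option autoImplicit false

/-!
# The base-6 automaton `F` (multiplication by 3/2)

Definitions of the automaton exactly as in the problem file, and the bridge to the real numbers
`(3/2)^n α`.
-/

namespace Pool.Agent.H429R2.Auto

/-- Configurations: bi-infinite words over `{0, …, 5}`, with the product topology. -/
abbrev Conf := ℤ → Fin 6

/-- The local rule `f(s,t) = (3s mod 6) + ⌊3t/6⌋`. -/
def f (s t : Fin 6) : Fin 6 := ⟨(3 * (s : ℕ)) % 6 + (3 * (t : ℕ)) / 6, by omega⟩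

/-- The automaton `F_{×3}`. -/
def mul3 (x : Conf) : Conf := fun i => f (x i) (x (i + 1))

/-- The right shift `σ⁻¹`. -/
def shiftR (x : Conf) : Conf := fun i => x (i - 1)

/-- The automaton `F = F_{×3} ∘ F_{×3} ∘ σ⁻¹`. -/
def F (x : Conf) : Conf := mul3 (mul3 (shiftR x))

/-- A configuration is finite if only finitely many digits are nonzero. -/
def IsFin (x : Conf) : Prop := {i : ℤ | x i ≠ 0}.Finite

/-- The forward orbit of a configuration under `F`. -/
def orbit (x : Conf) : Set Conf := Set.range fun n : ℕ => F^[n] x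

/-- `x` is the canonical base-6 expansion of the real number `β`. -/
def Rep (x : Conf) (β : ℝ) : Prop := ∀ i : ℤ, ((x i : Fin 6) : ℕ) = ⌊(6 : ℝ) ^ i * β⌋₊ % 6

theorem rep_mul3 {x : Conf} {β : ℝ} (hβ : 0 ≤ β) (h : Rep x β) : Rep (mul3 x) (3 * β) := by
  intro i
  have h0 := h i
  have h1 := h (i + 1)
  set z : ℝ := (6 : ℝ) ^ i * β with hz
  have hz0 : 0 ≤ z := by positivity
  have e1 : (6 : ℝ) ^ (i + 1) * β = 6 * z := by
    rw [zpow_add_one₀ (by norm_num), hz]; ring
  have e2 : (6 : ℝ) ^ i * (3 * β) = 3 * z := by rw [hz]; ring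
  rw [e1] at h1
  rw [e2]
  have a1 : ((⌊z⌋₊ : ℕ) : ℝ) ≤ z := Nat.floor_le hz0
  have a2 : z < (⌊z⌋₊ : ℕ) + 1 := Nat.lt_floor_add_one z
  have b1 : ((⌊6 * z⌋₊ : ℕ) : ℝ) ≤ 6 * z := Nat.floor_le (by positivity)
  have b2 : 6 * z < (⌊6 * z⌋₊ : ℕ) + 1 := Nat.lt_floor_add_one _
  set A := ⌊z⌋₊ with hA
  set B := ⌊6 * z⌋₊ with hB
  have c1 : 6 * A ≤ B := by
    have : ((6 * A : ℕ) : ℝ) < (B : ℝ) + 1 := by push_cast; linarith
    have : (6 * A : ℕ) < B + 1 := by exact_mod_cast this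
    omega
  have c2 : B < 6 * A + 6 := by
    have : (B : ℝ) < ((6 * A + 6 : ℕ) : ℝ) := by push_cast; linarith
    exact_mod_cast this
  have c3 : ⌊3 * z⌋₊ = B / 2 := by
    rw [Nat.floor_eq_iff (by positivity)]
    constructor
    · have : ((2 * (B / 2) : ℕ) : ℝ) ≤ (B : ℝ) := by exact_mod_cast (by omega)
      push_cast at this
      linarith
    · have : ((B + 1 : ℕ) : ℝ) ≤ ((2 * (B / 2) + 2 : ℕ) : ℝ) := by exact_mod_cast (by omega)
      push_cast at this
      linarith
  rw [c3]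
  show (3 * ((x i : Fin 6) : ℕ)) % 6 + (3 * ((x (i + 1) : Fin 6) : ℕ)) / 6 = _
  rw [h0, h1]
  omega

theorem rep_shiftR {x : Conf} {β : ℝ} (h : Rep x β) : Rep (shiftR x) (β / 6) := by
  intro i
  have h0 := h (i - 1)
  show ((x (i - 1) : Fin 6) : ℕ) = _
  rw [h0, zpow_sub_one₀ (by norm_num),
    show (6 : ℝ) ^ i * (6 : ℝ)⁻¹ * β = (6 : ℝ) ^ i * (β / 6) by ring]

theorem rep_F {x : Conf} {β : ℝ} (hβ : 0 ≤ β) (h : Rep x β) : Rep (F x) (3 / 2 * β) := by
  have := rep_mul3 (by positivity) (rep_mul3 (by positivity) (rep_shiftR h))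
  rw [show 3 / 2 * β = 3 * (3 * (β / 6)) by ring]
  exact this

theorem rep_iter {x : Conf} {β : ℝ} (hβ : 0 ≤ β) (h : Rep x β) (n : ℕ) :
    Rep (F^[n] x) ((3 / 2) ^ n * β) := by
  induction n with
  | zero => simpa using h
  | succ n ih =>
    rw [Function.iterate_succ_apply']
    have := rep_F (by positivity) ih
    rw [pow_succ]
    rw [show (3 / 2 : ℝ) ^ n * (3 / 2) * β = 3 / 2 * ((3 / 2) ^ n * β) by ring]
    exact this

/-- digits of a finite sum -/
theorem digits_sum (N : ℕ) : ∀ (g : ℕ → Fin 6) (l : ℕ), l < N →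
    ((∑ r ∈ Finset.range N, (g r : ℕ) * 6 ^ r) / 6 ^ l) % 6 = (g l : ℕ) := by
  induction N with
  | zero => intro g l hl; omega
  | succ N ih =>
    intro g l hl
    rw [Finset.sum_range_succ']
    simp only [pow_zero, mul_one]
    have e : ∑ r ∈ Finset.range N, (g (r + 1) : ℕ) * 6 ^ (r + 1)
        = 6 * ∑ r ∈ Finset.range N, (g (r + 1) : ℕ) * 6 ^ r := by
      rw [Finset.mul_sum]
      refine Finset.sum_congr rfl fun r _ => ?_
      rw [pow_succ]; ring
    rw [e]
    rcases l with _ | l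
    · have := (g 0).isLt
      simp only [pow_zero, Nat.div_one]
      omega
    · rw [pow_succ', ← Nat.div_div_eq_div_mul]
      have := (g 0).isLt
      rw [show (6 * ∑ r ∈ Finset.range N, (g (r + 1) : ℕ) * 6 ^ r + (g 0 : ℕ)) / 6
        = ∑ r ∈ Finset.range N, (g (r + 1) : ℕ) * 6 ^ r by omega]
      exact ih (fun r => g (r + 1)) l (by omega)

theorem sum_lt (N : ℕ) (g : ℕ → Fin 6) :
    ∑ r ∈ Finset.range N, (g r : ℕ) * 6 ^ r < 6 ^ N := by
  induction N with
  | zero => simp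
  | succ N ih =>
    rw [Finset.sum_range_succ, pow_succ]
    have h1 := (g N).isLt
    have h2 : (g N : ℕ) * 6 ^ N ≤ 5 * 6 ^ N := Nat.mul_le_mul_right _ (by omega)
    omega

/-- a number below `6^L` is determined by its digits -/
theorem eq_of_digits (L : ℕ) : ∀ a b : ℕ, a < 6 ^ L → b < 6 ^ L →
    (∀ r < L, a / 6 ^ r % 6 = b / 6 ^ r % 6) → a = b := by
  induction L with
  | zero => intro a b ha hb _; simp at ha hb; omega
  | succ L ih =>
    intro a b ha hb h
    have h0 := h 0 (by omega)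
    simp only [pow_zero, Nat.div_one] at h0
    have h1 : a / 6 = b / 6 := by
      apply ih
      · rw [pow_succ] at ha; omega
      · rw [pow_succ] at hb; omega
      · intro r hr
        have := h (r + 1) (by omega)
        rw [pow_succ', ← Nat.div_div_eq_div_mul, ← Nat.div_div_eq_div_mul] at this
        exact this
    omega

/-- Every finite configuration is the expansion of some `m / 6^k`, and `m > 0` if the
configuration is not zero. -/
theorem exists_rep {x : Conf} (hx : IsFin x) :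
    ∃ m k : ℕ, Rep x ((m : ℝ) / 6 ^ k) ∧ (x ≠ 0 → 0 < m) ∧ (∀ i : ℤ, (k : ℤ) < i → x i = 0) := by
  obtain ⟨k, hk⟩ : ∃ k : ℕ, ∀ i : ℤ, x i ≠ 0 → i.natAbs ≤ k := by
    have h1 := (hx.image Int.natAbs).bddAbove
    obtain ⟨k, hk⟩ := h1
    exact ⟨k, fun i hi => hk ⟨i, hi, rfl⟩⟩
  have hk' : ∀ i : ℤ, k < i.natAbs → x i = 0 := by
    intro i hi
    by_contra h
    have := hk i h
    omega
  set g : ℕ → Fin 6 := fun l => x ((k : ℤ) - l) with hg
  set m : ℕ := ∑ r ∈ Finset.range (2 * k + 1), (g r : ℕ) * 6 ^ r with hm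
  have hdig : ∀ l : ℕ, m / 6 ^ l % 6 = (g l : ℕ) := by
    intro l
    rcases Nat.lt_or_ge l (2 * k + 1) with h | h
    · exact digits_sum _ g l h
    · have h1 : m < 6 ^ l := lt_of_lt_of_le (sum_lt _ g) (Nat.pow_le_pow_right (by norm_num) h)
      rw [Nat.div_eq_of_lt h1]
      have : g l = 0 := hk' _ (by omega)
      rw [this]
      simp
  have hrep : Rep x ((m : ℝ) / 6 ^ k) := by
    intro i
    rcases le_or_gt i (k : ℤ) with h | h
    · obtain ⟨l, hl⟩ := Int.eq_ofNat_of_zero_le (sub_nonneg.2 h)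
      have e : (6 : ℝ) ^ i * ((m : ℝ) / 6 ^ k) = (m : ℝ) / ((6 ^ l : ℕ) : ℝ) := by
        have : i = (k : ℤ) - l := by omega
        rw [this, zpow_sub₀ (by norm_num), zpow_natCast, zpow_natCast]
        push_cast
        field_simp
      rw [e, Nat.floor_div_eq_div, hdig]
      show ((x i : Fin 6) : ℕ) = ((x ((k : ℤ) - l) : Fin 6) : ℕ)
      congr 2
      omega
    · obtain ⟨l, hl⟩ := Int.eq_ofNat_of_zero_le (sub_nonneg.2 h.le)
      have hl1 : 0 < l := by omega
      have e : (6 : ℝ) ^ i * ((m : ℝ) / 6 ^ k) = ((6 ^ l * m : ℕ) : ℝ) := by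
        have : i = (k : ℤ) + l := by omega
        rw [this, zpow_add₀ (by norm_num), zpow_natCast, zpow_natCast]
        push_cast
        field_simp
      rw [e, Nat.floor_natCast]
      have h2 : x i = 0 := hk' _ (by omega)
      rw [h2]
      obtain ⟨l', rfl⟩ : ∃ l', l = l' + 1 := ⟨l - 1, by omega⟩
      rw [pow_succ', mul_assoc, Nat.mul_mod_right]
      rfl
  refine ⟨m, k, hrep, ?_, ?_⟩
  · intro hne
    rcases Nat.eq_zero_or_pos m with h0 | h0
    · exfalso
      apply hne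
      funext i
      have := hrep i
      rw [h0] at this
      simp at this
      exact Fin.ext (by simpa using this)
    · exact h0
  · intro i hi
    exact hk' i (by omega)

/-- The letters in a window, in terms of the real number. -/
theorem letter {x : Conf} {β : ℝ} (hx : Rep x β) (j : ℤ) (L r : ℕ) (hr : r < L) :
    ((x (j + L - 1 - r) : Fin 6) : ℕ) = (⌊(6 : ℝ) ^ (j + L - 1) * β⌋₊ % 6 ^ L) / 6 ^ r % 6 := by
  rw [hx]
  have e : (6 : ℝ) ^ (j + L - 1 - r) * β = ((6 : ℝ) ^ (j + L - 1) * β) / ((6 ^ r : ℕ) : ℝ) := by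
    rw [zpow_sub₀ (by norm_num) (j + L - 1) (r : ℤ), zpow_natCast]
    push_cast
    ring
  rw [e, Nat.floor_div_natCast]
  have h1 : 6 ^ L = 6 ^ r * 6 ^ (L - r) := by rw [← pow_add]; congr 1; omega
  rw [h1, Nat.mod_mul_right_div_self, Nat.mod_mod_of_dvd]
  exact dvd_pow_self 6 (by omega)

end Pool.Agent.H429R2.Auto
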