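import Mathlib

set_option autoImplicit false

/-!
# A counting lemma for orbits of `y ↦ (3/2) y` avoiding a residue window

`b`-adic cells of the half line, in which some point avoids a prescribed residue at the times
`t 0, t 1, …`; there are at most `(b-1)^k` of them inside each unit interval.
-/

namespace Pool.Agent.H429R2.Cells

/-- One step: in each unit interval there is a `b`-adic cell all of whose points hit. -/
theorem hit (Q u b : ℕ) (hu : u < Q) (hb : 6 * Q ≤ b) (s : ℝ) (h2 : 2 * (Q : ℝ) ≤ s)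
    (h3 : s ≤ 3 * (Q : ℝ)) (c : ℕ) :
    ∃ e < b, ∀ x : ℝ, (c : ℝ) + e / b ≤ x → x < (c : ℝ) + (e + 1) / b → ⌊s * x⌋₊ % Q = u := by
  have hQ : 1 ≤ Q := by omega
  have hQr : (1 : ℝ) ≤ Q := by exact_mod_cast hQ
  have hs : 0 < s := by linarith
  have hbr : 6 * (Q : ℝ) ≤ b := by exact_mod_cast hb
  have hb0 : (0 : ℝ) < b := by linarith
  obtain ⟨z, hz1, hz2⟩ : ∃ z : ℕ, s * c ≤ (z : ℝ) * Q + u ∧ (z : ℝ) * Q + u < s * c + Q := by
    rcases le_or_gt (s * c) u with h | h
    · refine ⟨0, by simpa using h, ?_⟩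
      have : (u : ℝ) < Q := by exact_mod_cast hu
      have : 0 ≤ s * c := by positivity
      push_cast
      linarith
    · refine ⟨⌈(s * c - u) / Q⌉₊, ?_, ?_⟩
      · have := Nat.le_ceil ((s * c - u) / Q)
        rw [div_le_iff₀ (by linarith)] at this
        linarith
      · have := Nat.ceil_lt_add_one (a := (s * c - u) / Q) (by
          apply div_nonneg <;> linarith)
        have h4 : (⌈(s * c - u) / Q⌉₊ : ℝ) * Q < ((s * c - u) / Q + 1) * Q :=
          mul_lt_mul_of_pos_right this (by linarith)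
        have h5 : ((s * c - u) / Q + 1) * Q = s * c - u + Q := by field_simp
        linarith
  set x0 : ℝ := ((z : ℝ) * Q + u) / s with hx0
  have hx1 : (c : ℝ) ≤ x0 := by
    rw [hx0, le_div_iff₀ hs]; linarith
  have hx2 : x0 < c + 1 / 2 := by
    rw [hx0, div_lt_iff₀ hs]
    have : (c + 1 / 2) * s = s * c + s / 2 := by ring
    linarith
  refine ⟨⌈b * (x0 - c)⌉₊, ?_, ?_⟩
  · have h4 := Nat.ceil_lt_add_one (a := (b : ℝ) * (x0 - c)) (by
      apply mul_nonneg <;> linarith)
    have h5 : (b : ℝ) * (x0 - c) ≤ b * (1 / 2) := mul_le_mul_of_nonneg_left (by linarith) hb0.le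
    have h6 : (⌈b * (x0 - c)⌉₊ : ℝ) < b := by linarith
    exact_mod_cast h6
  · intro x hxa hxb
    have h4 := Nat.le_ceil ((b : ℝ) * (x0 - c))
    have h5 := Nat.ceil_lt_add_one (a := (b : ℝ) * (x0 - c)) (by
      apply mul_nonneg <;> linarith)
    have h6 : x0 ≤ x := by
      have : x0 - c ≤ (⌈b * (x0 - c)⌉₊ : ℝ) / b := by
        rw [le_div_iff₀ hb0]; linarith
      linarith
    have h7 : x < x0 + 1 / s := by
      have h8 : ((⌈b * (x0 - c)⌉₊ : ℝ) + 1) / b < (x0 - c) + 2 / b := by
        rw [div_lt_iff₀ hb0]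
        have : (x0 - c + 2 / b) * b = b * (x0 - c) + 2 := by field_simp
        linarith
      have h9 : (2 : ℝ) / b ≤ 1 / s := by
        rw [div_le_div_iff₀ hb0 hs]
        linarith
      linarith
    have h10 : ⌊s * x⌋₊ = z * Q + u := by
      rw [Nat.floor_eq_iff (by have : 0 ≤ x := le_trans (by positivity) (hx1.trans h6); positivity)]
      have e1 : s * x0 = (z : ℝ) * Q + u := by rw [hx0]; field_simp
      constructor
      · push_cast
        rw [← e1]
        exact mul_le_mul_of_nonneg_left h6 hs.le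
      · push_cast
        rw [← e1]
        calc s * x < s * (x0 + 1 / s) := mul_lt_mul_of_pos_left h7 hs
          _ = s * x0 + 1 := by field_simp
    rw [h10, Nat.mul_comm, Nat.mul_add_mod, Nat.mod_eq_of_lt hu]

/-- `Avoid μ Q u k y`: the point `y` avoids the residue `u` at the first `k` stages. -/
def Avoid (μ : ℕ → ℝ) (Q u k : ℕ) (y : ℝ) : Prop := ∀ i < k, ⌊μ i * y⌋₊ % Q ≠ u

open Classical in
/-- The `b`-adic cells of level `k` in `[0, T)` containing a point that avoids `u` at the first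
`k` stages. -/
noncomputable def S (μ : ℕ → ℝ) (Q u b T k : ℕ) : Finset ℕ :=
  (Finset.range (T * b ^ k)).filter fun c =>
    ∃ y : ℝ, (c : ℝ) ≤ y * b ^ k ∧ y * b ^ k < c + 1 ∧ Avoid μ Q u k y

theorem card_S (μ : ℕ → ℝ) (Q u b T : ℕ) (hu : u < Q) (hb : 6 * Q ≤ b)
    (hμ : ∀ k, 2 * (Q : ℝ) * b ^ k ≤ μ k ∧ μ k ≤ 3 * (Q : ℝ) * b ^ k) (k : ℕ) :
    (S μ Q u b T k).card ≤ T * (b - 1) ^ k := by
  classical
  have hb0 : 0 < b := by omega
  have hbr : (0 : ℝ) < b := by exact_mod_cast hb0
  induction k with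
  | zero =>
    refine (Finset.card_filter_le _ _).trans ?_
    simp
  | succ k ih =>
    have hpk : (0 : ℝ) < (b : ℝ) ^ k := by positivity
    -- the forbidden child
    have hh : ∀ c : ℕ, ∃ e < b, ∀ x : ℝ, (c : ℝ) + e / b ≤ x → x < (c : ℝ) + (e + 1) / b →
        ⌊(μ k / b ^ k) * x⌋₊ % Q = u := by
      intro c
      apply hit Q u b hu hb
      · rw [le_div_iff₀ hpk]; exact (hμ k).1
      · rw [div_le_iff₀ hpk]; exact (hμ k).2
    choose e he1 he2 using hh
    have hsub : ∀ c ∈ S μ Q u b T (k + 1), c / b ∈ S μ Q u b T k ∧ c % b ≠ e (c / b) := by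
      intro c hc
      simp only [S, Finset.mem_filter, Finset.mem_range] at hc ⊢
      obtain ⟨hc1, y, hy1, hy2, hy3⟩ := hc
      have hdm : b * (c / b) + c % b = c := Nat.div_add_mod c b
      have hml : c % b < b := Nat.mod_lt _ hb0
      have hdmr : (b : ℝ) * ((c / b : ℕ) : ℝ) + ((c % b : ℕ) : ℝ) = c := by exact_mod_cast hdm
      have hmlr : ((c % b : ℕ) : ℝ) + 1 ≤ b := by exact_mod_cast hml
      have hm0 : (0 : ℝ) ≤ ((c % b : ℕ) : ℝ) := by positivity
      rw [pow_succ] at hy1 hy2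
      have hyb : y * ((b : ℝ) ^ k * b) = (y * b ^ k) * b := by ring
      rw [hyb] at hy1 hy2
      refine ⟨⟨?_, y, ?_, ?_, fun i hi => hy3 i (by omega)⟩, ?_⟩
      · rw [Nat.div_lt_iff_lt_mul hb0]
        rw [pow_succ] at hc1
        calc c < T * (b ^ k * b) := hc1
          _ = T * b ^ k * b := by ring
      · by_contra hcon
        push Not at hcon
        have : (y * b ^ k) * b < ((c / b : ℕ) : ℝ) * b := mul_lt_mul_of_pos_right hcon hbr
        linarith
      · by_contra hcon
        push Not at hcon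
        have : (((c / b : ℕ) : ℝ) + 1) * b ≤ (y * b ^ k) * b :=
          mul_le_mul_of_nonneg_right hcon hbr.le
        linarith
      · intro heq
        have h1 := he2 (c / b) (y * b ^ k) (by
          rw [← heq]
          have : ((c / b : ℕ) : ℝ) + ((c % b : ℕ) : ℝ) / b = c / b := by
            field_simp; linarith
          rw [this, div_le_iff₀ hbr]; exact hy1) (by
          rw [← heq]
          have : ((c / b : ℕ) : ℝ) + (((c % b : ℕ) : ℝ) + 1) / b = (c + 1) / b := by
            field_simp; linarith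
          rw [this, lt_div_iff₀ hbr]; exact hy2)
        apply hy3 k (by omega)
        rw [← h1]
        congr 2
        field_simp
    have h1 : (S μ Q u b T (k + 1)).card ≤ (b - 1) * ((S μ Q u b T (k + 1)).image (· / b)).card := by
      apply Finset.card_le_mul_card_image
      intro a _
      have h2 : ((S μ Q u b T (k + 1)).filter (fun x => x / b = a)) ⊆
          ((Finset.range b).erase (e a)).image (fun r => b * a + r) := by
        intro c hc
        rw [Finset.mem_filter] at hc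
        obtain ⟨hc1, hc2⟩ := hc
        have h3 := hsub c hc1
        simp only [Finset.mem_image, Finset.mem_erase, Finset.mem_range]
        refine ⟨c % b, ⟨?_, Nat.mod_lt _ hb0⟩, ?_⟩
        · rw [← hc2]; exact h3.2
        · rw [← hc2]; exact Nat.div_add_mod c b
      refine (Finset.card_le_card h2).trans (Finset.card_image_le.trans ?_)
      rw [Finset.card_erase_of_mem (Finset.mem_range.2 (he1 a)), Finset.card_range]
    have h3 : ((S μ Q u b T (k + 1)).image (· / b)) ⊆ S μ Q u b T k := by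
      intro a ha
      rw [Finset.mem_image] at ha
      obtain ⟨c, hc, rfl⟩ := ha
      exact (hsub c hc).1
    calc (S μ Q u b T (k + 1)).card ≤ (b - 1) * ((S μ Q u b T (k + 1)).image (· / b)).card := h1
      _ ≤ (b - 1) * (S μ Q u b T k).card := Nat.mul_le_mul_left _ (Finset.card_le_card h3)
      _ ≤ (b - 1) * (T * (b - 1) ^ k) := Nat.mul_le_mul_left _ ih
      _ = T * (b - 1) ^ (k + 1) := by rw [pow_succ]; ring

/-- Existence of suitable times: `(3/2)^t ∈ [A, 3A/2]`, with a bound on `t`. -/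
theorem exists_time (A : ℝ) (hA : 1 ≤ A) (n : ℕ) (hn : A ≤ 6 ^ n) :
    ∃ t : ℕ, A ≤ (3 / 2 : ℝ) ^ t ∧ (3 / 2 : ℝ) ^ t ≤ 3 / 2 * A ∧ t ≤ 5 * n := by
  have h6 : ∀ n : ℕ, (6 : ℝ) ^ n ≤ (3 / 2 : ℝ) ^ (5 * n) := by
    intro n
    rw [pow_mul]
    apply pow_le_pow_left₀ (by norm_num)
    norm_num
  have hex : ∃ t : ℕ, A ≤ (3 / 2 : ℝ) ^ t := ⟨5 * n, hn.trans (h6 n)⟩
  classical
  refine ⟨Nat.find hex, Nat.find_spec hex, ?_, Nat.find_min' hex (hn.trans (h6 n))⟩
  rcases Nat.eq_zero_or_pos (Nat.find hex) with h0 | h0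
  · rw [h0]; norm_num; linarith
  · have h1 := Nat.find_min hex (m := Nat.find hex - 1) (by omega)
    push Not at h1
    obtain ⟨t, ht⟩ : ∃ t, Nat.find hex = t + 1 := ⟨Nat.find hex - 1, by omega⟩
    rw [ht] at h1 ⊢
    simp only [Nat.add_sub_cancel] at h1
    rw [pow_succ]
    linarith

end Pool.Agent.H429R2.Cells
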