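import Mathlib
import Pool.Agent.H429R2.Cells

set_option autoImplicit false

/-!
# The gap theorem: windows of a non-dense orbit are exponentially rare
-/

namespace Pool.Agent.H429R2.Gap

open Pool.Agent.H429R2.Cells

/-- the number whose base-6 digits are the letters of the window `[-M, M]` at time `n` -/
noncomputable def val (β : ℝ) (M n : ℕ) : ℕ := ⌊(6 : ℝ) ^ M * ((3 / 2) ^ n * β)⌋₊ % 6 ^ (2 * M + 1)

/-- every window content occurs -/
def Full (β : ℝ) : Prop := ∀ M, ∀ u < 6 ^ (2 * M + 1), ∃ n, val β M n = u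

theorem range_finite (β : ℝ) (M : ℕ) : (Set.range (val β M)).Finite :=
  (Set.finite_lt_nat (6 ^ (2 * M + 1))).subset (by
    rintro _ ⟨n, rfl⟩
    exact Nat.mod_lt _ (by positivity))

/-- The counting bound. -/
theorem count {β : ℝ} (hβ : 0 ≤ β) {M₀ u₀ : ℕ} (hu : u₀ < 6 ^ (2 * M₀ + 1))
    (hav : ∀ n, val β M₀ n ≠ u₀) (M K : ℕ)
    (hMK : K = 0 ∨ 5 * (M₀ + 2 + (2 * M₀ + 2) * K) + M₀ ≤ M) :
    (Set.range (val β M)).ncard ≤
      6 ^ (M - (2 * M₀ + 2) * K) * (6 ^ (M + 1) * (6 ^ (2 * M₀ + 2) - 1) ^ K) := by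
  classical
  rcases hMK with hK | hMK
  · subst hK
    simp only [Nat.mul_zero, Nat.sub_zero, pow_zero, mul_one]
    have : Set.range (val β M) ⊆ ((Finset.range (6 ^ (2 * M + 1)) : Finset ℕ) : Set ℕ) := by
      rintro _ ⟨n, rfl⟩
      simp only [Finset.coe_range, Set.mem_Iio]
      exact Nat.mod_lt _ (by positivity)
    have h2 := Set.ncard_le_ncard this (Finset.finite_toSet _)
    rw [Set.ncard_coe_finset, Finset.card_range] at h2
    refine h2.trans (le_of_eq ?_)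
    rw [← pow_add]; congr 1; omega
  set a := 2 * M₀ + 2 with ha
  set Q := 6 ^ (2 * M₀ + 1) with hQ
  have haK : a * K ≤ M := by
    have : a * K ≤ 5 * (M₀ + 2 + a * K) + M₀ := by nlinarith
    omega
  have hb : 6 * Q ≤ 6 ^ a := by
    rw [hQ, ha, ← pow_succ']
  -- times
  have htime : ∀ k : ℕ, ∃ t : ℕ, 2 * (6 : ℝ) ^ (M₀ + 1) * (6 ^ a) ^ k ≤ (3 / 2 : ℝ) ^ t ∧
      (3 / 2 : ℝ) ^ t ≤ 3 / 2 * (2 * (6 : ℝ) ^ (M₀ + 1) * (6 ^ a) ^ k) ∧
      t ≤ 5 * (M₀ + 2 + a * k) := by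
    intro k
    apply exists_time
    · have h1 : (1 : ℝ) ≤ 6 ^ (M₀ + 1) := one_le_pow₀ (by norm_num)
      have h2 : (1 : ℝ) ≤ (6 ^ a) ^ k := one_le_pow₀ (one_le_pow₀ (by norm_num))
      nlinarith
    · have e : (6 : ℝ) ^ (M₀ + 2 + a * k) = 6 * (6 ^ (M₀ + 1) * (6 ^ a) ^ k) := by
        rw [← pow_mul, ← pow_add, ← pow_succ']; congr 1; ring
      rw [e]
      have : (0 : ℝ) < 6 ^ (M₀ + 1) * (6 ^ a) ^ k := by positivity
      linarith
  choose t ht1 ht2 ht3 using htime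
  set μ : ℕ → ℝ := fun k => 6 ^ M₀ * (3 / 2) ^ (t k) with hμ
  have hμb : ∀ k, 2 * ((Q : ℕ) : ℝ) * (((6 ^ a : ℕ) : ℝ)) ^ k ≤ μ k ∧
      μ k ≤ 3 * ((Q : ℕ) : ℝ) * (((6 ^ a : ℕ) : ℝ)) ^ k := by
    intro k
    have hQr : ((Q : ℕ) : ℝ) = 6 ^ M₀ * 6 ^ (M₀ + 1) := by
      rw [hQ, ← pow_add]; push_cast; congr 1; omega
    have h6 : (0 : ℝ) < 6 ^ M₀ := by positivity
    rw [hQr]
    push_cast
    constructor
    · calc 2 * ((6 : ℝ) ^ M₀ * 6 ^ (M₀ + 1)) * (6 ^ a) ^ k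
          = 6 ^ M₀ * (2 * 6 ^ (M₀ + 1) * (6 ^ a) ^ k) := by ring
        _ ≤ 6 ^ M₀ * (3 / 2) ^ (t k) := mul_le_mul_of_nonneg_left (ht1 k) h6.le
    · calc 6 ^ M₀ * (3 / 2 : ℝ) ^ (t k)
          ≤ 6 ^ M₀ * (3 / 2 * (2 * (6 : ℝ) ^ (M₀ + 1) * (6 ^ a) ^ k)) :=
            mul_le_mul_of_nonneg_left (ht2 k) h6.le
        _ = 3 * ((6 : ℝ) ^ M₀ * 6 ^ (M₀ + 1)) * (6 ^ a) ^ k := by ring
  have hcardS := card_S μ Q u₀ (6 ^ a) (6 ^ (M + 1)) hu hb hμb K
  set d := 6 ^ (M - a * K) with hd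
  have hd0 : 0 < d := by positivity
  set W : Finset ℕ := (Finset.range (6 ^ (2 * M + 1))).filter fun v =>
    v / d ∈ S μ Q u₀ (6 ^ a) (6 ^ (M + 1)) K with hW
  have hsub : Set.range (val β M) ⊆ (W : Set ℕ) := by
    rintro _ ⟨n, rfl⟩
    rw [Finset.mem_coe, hW, Finset.mem_filter, Finset.mem_range]
    have hlt : val β M n < 6 ^ (2 * M + 1) := Nat.mod_lt _ (by positivity)
    refine ⟨hlt, ?_⟩
    set X : ℝ := (6 : ℝ) ^ M * ((3 / 2) ^ n * β) with hX
    have hX0 : 0 ≤ X := by positivity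
    set N : ℕ := ⌊X⌋₊ with hN
    set v := val β M n with hv
    have hv' : v = N % 6 ^ (2 * M + 1) := rfl
    set Z := N / 6 ^ (2 * M + 1) with hZ
    have hNZ : 6 ^ (2 * M + 1) * Z + v = N := Nat.div_add_mod N _
    have hNZr : (6 : ℝ) ^ (2 * M + 1) * Z + v = N := by exact_mod_cast hNZ
    have hXa : (N : ℝ) ≤ X := Nat.floor_le hX0
    have hXb : X < N + 1 := Nat.lt_floor_add_one X
    set y : ℝ := (X - 6 ^ (2 * M + 1) * Z) / 6 ^ M with hy
    have h6M : (0 : ℝ) < 6 ^ M := by positivity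
    have hy1 : (v : ℝ) ≤ y * 6 ^ M := by
      rw [hy]; field_simp; linarith
    have hy2 : y * 6 ^ M < v + 1 := by
      rw [hy]; field_simp; linarith
    have hy0 : 0 ≤ y := by
      by_contra hcon
      push Not at hcon
      have : y * 6 ^ M < 0 := mul_neg_of_neg_of_pos hcon h6M
      have : (0 : ℝ) ≤ v := by positivity
      linarith
    have hdr : (0 : ℝ) < (d : ℝ) := by exact_mod_cast hd0
    have hM6 : (6 : ℝ) ^ M = ((6 : ℝ) ^ a) ^ K * d := by
      rw [hd]; push_cast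
      rw [← pow_mul, ← pow_add]; congr 1; omega
    simp only [S, Finset.mem_filter, Finset.mem_range]
    have hdm : d * (v / d) + v % d = v := Nat.div_add_mod v d
    have hml : v % d < d := Nat.mod_lt _ hd0
    have hdmr : (d : ℝ) * ((v / d : ℕ) : ℝ) + ((v % d : ℕ) : ℝ) = v := by exact_mod_cast hdm
    have hmlr : ((v % d : ℕ) : ℝ) + 1 ≤ d := by exact_mod_cast hml
    have hm0 : (0 : ℝ) ≤ ((v % d : ℕ) : ℝ) := by positivity
    refine ⟨?_, y, ?_, ?_, ?_⟩
    · rw [Nat.div_lt_iff_lt_mul hd0]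
      calc v < 6 ^ (2 * M + 1) := hlt
        _ = 6 ^ (M + 1) * (6 ^ a) ^ K * d := by
          rw [hd, ← pow_mul, ← pow_add, ← pow_add]; congr 1; omega
    · push_cast
      by_contra hcon
      push Not at hcon
      have h1 : (y * (6 ^ a) ^ K) * d < ((v / d : ℕ) : ℝ) * d := mul_lt_mul_of_pos_right hcon hdr
      have h2 : (y * (6 ^ a) ^ K) * d = y * 6 ^ M := by rw [hM6]; ring
      linarith
    · push_cast
      by_contra hcon
      push Not at hcon
      have h1 : (((v / d : ℕ) : ℝ) + 1) * d ≤ (y * (6 ^ a) ^ K) * d :=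
        mul_le_mul_of_nonneg_right hcon hdr.le
      have h2 : (y * (6 ^ a) ^ K) * d = y * 6 ^ M := by rw [hM6]; ring
      linarith
    · intro i hi
      have hti : t i ≤ M - M₀ := by
        have h1 := ht3 i
        have h2 : a * i ≤ a * K := Nat.mul_le_mul_left _ hi.le
        omega
      have hM0 : M₀ ≤ M := by omega
      have hkey : μ i * y + ((Q * (6 ^ (M - M₀ - t i) * 9 ^ (t i) * Z) : ℕ) : ℝ)
          = (6 : ℝ) ^ M₀ * ((3 / 2) ^ (n + t i) * β) := by
        have e1 : (6 : ℝ) ^ (M - M₀ - t i) * 9 ^ (t i) = 6 ^ (M - M₀) * (3 / 2) ^ (t i) := by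
          have : (6 : ℝ) ^ (M - M₀) = 6 ^ (M - M₀ - t i) * 6 ^ (t i) := by
            rw [← pow_add]; congr 1; omega
          rw [this, mul_assoc, ← mul_pow]; norm_num
        have e2 : ((Q : ℕ) : ℝ) * 6 ^ (M - M₀) = 6 ^ M₀ * 6 ^ (M + 1) := by
          rw [hQ]; push_cast
          rw [← pow_add, ← pow_add]; congr 1; omega
        push_cast
        rw [e1, hy, hX, pow_add (3 / 2 : ℝ) n (t i)]
        have e3 : ((Q : ℕ) : ℝ) * (6 ^ (M - M₀) * (3 / 2) ^ t i * (Z : ℝ))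
            = 6 ^ M₀ * 6 ^ (M + 1) * ((3 / 2) ^ t i * Z) := by rw [← e2]; ring
        rw [e3, hμ]
        have e4 : (6 : ℝ) ^ (2 * M + 1) = 6 ^ M * 6 ^ (M + 1) := by
          rw [← pow_add]; congr 1; omega
        rw [e4]
        field_simp
        ring
      have h1 : val β M₀ (n + t i) = ⌊μ i * y⌋₊ % Q := by
        unfold val
        rw [← hkey, Nat.floor_add_natCast (by
          have : 0 ≤ μ i := by rw [hμ]; positivity
          positivity), ← hQ, Nat.add_mul_mod_self_left]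
      rw [← h1]
      exact hav _
  have h3 := Set.ncard_le_ncard hsub (Finset.finite_toSet _)
  rw [Set.ncard_coe_finset] at h3
  refine h3.trans ?_
  have h4 : W.card ≤ d * (W.image (· / d)).card := by
    apply Finset.card_le_mul_card_image
    intro c _
    have : (W.filter (fun x => x / d = c)) ⊆ (Finset.range d).image (fun r => d * c + r) := by
      intro w hw
      rw [Finset.mem_filter] at hw
      simp only [Finset.mem_image, Finset.mem_range]
      exact ⟨w % d, Nat.mod_lt _ hd0, by rw [← hw.2]; exact Nat.div_add_mod w d⟩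
    refine (Finset.card_le_card this).trans (Finset.card_image_le.trans ?_)
    rw [Finset.card_range]
  have h5 : W.image (· / d) ⊆ S μ Q u₀ (6 ^ a) (6 ^ (M + 1)) K := by
    intro c hc
    rw [Finset.mem_image] at hc
    obtain ⟨w, hw, rfl⟩ := hc
    exact (Finset.mem_filter.1 hw).2
  calc W.card ≤ d * (W.image (· / d)).card := h4
    _ ≤ d * (S μ Q u₀ (6 ^ a) (6 ^ (M + 1)) K).card := Nat.mul_le_mul_left _ (Finset.card_le_card h5)
    _ ≤ d * (6 ^ (M + 1) * (6 ^ a - 1) ^ K) := Nat.mul_le_mul_left _ hcardS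

/-- The gap theorem. -/
theorem gap {β : ℝ} (hβ : 0 ≤ β) (h : ¬ Full β) :
    ∃ δ : ℝ, 0 < δ ∧ ∃ C : ℝ, 0 < C ∧ ∀ M : ℕ,
      ((Set.range (val β M)).ncard : ℝ) ≤ C * (6 : ℝ) ^ ((1 - δ) * (2 * M + 1)) := by
  unfold Full at h
  push Not at h
  obtain ⟨M₀, u₀, hu, hav⟩ := h
  set a := 2 * M₀ + 2 with ha
  have ha0 : 0 < a := by omega
  have har : (1 : ℝ) ≤ a := by exact_mod_cast ha0
  set q : ℝ := 1 - 1 / 6 ^ a with hq
  have h6a : (6 : ℝ) ≤ 6 ^ a := by
    calc (6 : ℝ) = 6 ^ 1 := by norm_num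
      _ ≤ 6 ^ a := pow_le_pow_right₀ (by norm_num) ha0
  have hinv : (1 : ℝ) / 6 ^ a ≤ 1 / 6 := one_div_le_one_div_of_le (by norm_num) h6a
  have hinv0 : (0 : ℝ) < 1 / 6 ^ a := by positivity
  have hq0 : 0 < q := by rw [hq]; linarith
  have hq1 : q < 1 := by rw [hq]; linarith
  have hlq : Real.log q < 0 := Real.log_neg hq0 hq1
  have hl6 : 0 < Real.log 6 := Real.log_pos (by norm_num)
  set C₀ := 5 * (M₀ + 2) + M₀ with hC₀
  refine ⟨-Real.log q / (10 * a * Real.log 6), ?_, Real.exp (-(C₀ + 2) * Real.log q),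
    Real.exp_pos _, ?_⟩
  · apply div_pos (by linarith); positivity
  intro M
  set K := (M - C₀) / (5 * a) with hK
  have hKle : 5 * a * K ≤ M - C₀ := Nat.mul_div_le _ _
  have hKge : M < 5 * a * K + 5 * a + C₀ := by
    have := Nat.lt_mul_div_succ (M - C₀) (show 0 < 5 * a by omega)
    rw [← hK] at this
    have h2 : 5 * a * (K + 1) = 5 * a * K + 5 * a := by ring
    omega
  have hc := count hβ hu hav M K (by
    rcases Nat.eq_zero_or_pos K with h0 | h0
    · exact Or.inl h0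
    · right
      have : 0 < 5 * a * K := by positivity
      have h3 : 5 * (M₀ + 2 + a * K) = 5 * (M₀ + 2) + 5 * a * K := by ring
      rw [← ha, h3]
      omega)
  have haK : a * K ≤ M := by
    have : a * K ≤ 5 * a * K := by nlinarith
    omega
  have hc2 : ((Set.range (val β M)).ncard : ℝ) ≤ 6 ^ (2 * M + 1) * q ^ K := by
    have h1 : ((6 ^ (M - a * K) * (6 ^ (M + 1) * (6 ^ a - 1) ^ K) : ℕ) : ℝ)
        = 6 ^ (2 * M + 1) * q ^ K := by
      have h2 : ((6 ^ a - 1 : ℕ) : ℝ) = 6 ^ a * q := by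
        rw [Nat.cast_sub (Nat.one_le_pow _ _ (by norm_num)), hq]
        push_cast
        field_simp
      push_cast [h2]
      rw [mul_pow, ← pow_mul]
      have h3 : (6 : ℝ) ^ (2 * M + 1) = 6 ^ (M - a * K) * (6 ^ (M + 1) * 6 ^ (a * K)) := by
        rw [← pow_add, ← pow_add]; congr 1; omega
      rw [h3]; ring
    rw [← h1]
    exact_mod_cast hc
  refine hc2.trans ?_
  have e1 : (6 : ℝ) ^ ((1 - -Real.log q / (10 * a * Real.log 6)) * (2 * M + 1))
      = 6 ^ (2 * M + 1) * Real.exp (Real.log q * (2 * M + 1) / (10 * a)) := by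
    have h1 : ((1 : ℝ) - -Real.log q / (10 * a * Real.log 6)) * (2 * M + 1)
        = ((2 * M + 1 : ℕ) : ℝ) + Real.log q * (2 * M + 1) / (10 * a) / Real.log 6 := by
      push_cast
      field_simp
      ring
    rw [h1, Real.rpow_add (by norm_num), Real.rpow_natCast]
    congr 1
    rw [Real.rpow_def_of_pos (by norm_num)]
    congr 1
    field_simp
  rw [e1]
  have e2 : q ^ K = Real.exp (K * Real.log q) := by
    rw [mul_comm, Real.exp_mul, Real.exp_log hq0, Real.rpow_natCast]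
  rw [e2]
  have h6 : (0 : ℝ) < 6 ^ (2 * M + 1) := by positivity
  have h7 : Real.exp (K * Real.log q) ≤ Real.exp (-(C₀ + 2) * Real.log q) *
      Real.exp (Real.log q * (2 * M + 1) / (10 * a)) := by
    rw [← Real.exp_add]
    apply Real.exp_le_exp.2
    have h8 : (2 * (M : ℝ) + 1) / (10 * a) ≤ K + (C₀ + 2) := by
      rw [div_le_iff₀ (by positivity)]
      have h9 : (M : ℝ) < 5 * a * K + 5 * a + C₀ := by exact_mod_cast hKge
      have h10 : (0 : ℝ) ≤ C₀ := by positivity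
      nlinarith
    have h9 : Real.log q * (2 * M + 1) / (10 * a) = Real.log q * ((2 * M + 1) / (10 * a)) := by ring
    rw [h9]
    nlinarith
  calc 6 ^ (2 * M + 1) * Real.exp (K * Real.log q)
      ≤ 6 ^ (2 * M + 1) * (Real.exp (-(C₀ + 2) * Real.log q) *
      Real.exp (Real.log q * (2 * M + 1) / (10 * a))) := mul_le_mul_of_nonneg_left h7 h6.le
    _ = _ := by ring

end Pool.Agent.H429R2.Gap
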