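import Mathlib
import Pool.Agent.H429R2.Cells

set_option autoImplicit false

/-!
# The left end: leading digits of `(3/2)^n β`
-/

namespace Pool.Agent.H429R2.Left

open Pool.Agent.H429R2.Cells Real

/-- `(3/2)^A` and `6^q` can be made close, with ratio slightly above one. -/
theorem exists_ratio (h : ℝ) (h0 : 0 < h) (h1 : h ≤ 1 / 10) :
    ∃ A q : ℕ, (1 + h) * 6 ^ q ≤ (3 / 2 : ℝ) ^ A ∧ (3 / 2 : ℝ) ^ A ≤ (1 + 3 * h) * 6 ^ q := by
  have hl : 0 < log (3 / 2) := log_pos (by norm_num)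
  have hl6 : 0 < log 6 := log_pos (by norm_num)
  have hlh : 0 < log (1 + h) := log_pos (by linarith)
  have h2 : 2 * log (1 + h) ≤ log (1 + 3 * h) := by
    have : 2 * log (1 + h) = log ((1 + h) ^ 2) := by rw [log_pow]; norm_num
    rw [this]
    apply log_le_log (by positivity)
    nlinarith
  have h3 : 2 * log (1 + h) ≤ log (3 / 2) := by
    have : 2 * log (1 + h) = log ((1 + h) ^ 2) := by rw [log_pow]; norm_num
    rw [this]
    apply log_le_log (by positivity)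
    nlinarith
  obtain ⟨n, hn⟩ := exists_nat_gt (log (3 / 2) / log (1 + h))
  have hn0 : 0 < n := by
    have : 0 < log (3 / 2) / log (1 + h) := by positivity
    have : (0 : ℝ) < n := by linarith
    exact_mod_cast this
  obtain ⟨j, k, hk0, hkn, hjk⟩ :=
    Real.exists_int_int_abs_mul_sub_le (log 6 / log (3 / 2)) hn0
  have hn1 : (0 : ℝ) < (n : ℝ) + 1 := by positivity
  -- multiply by log (3/2)
  have habs : |(k : ℝ) * log 6 - j * log (3 / 2)| ≤ log (1 + h) := by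
    have e : (k : ℝ) * log 6 - j * log (3 / 2) = (k * (log 6 / log (3 / 2)) - j) * log (3 / 2) := by
      field_simp
    rw [e, abs_mul, abs_of_pos hl]
    calc |(k : ℝ) * (log 6 / log (3 / 2)) - j| * log (3 / 2) ≤ 1 / (n + 1) * log (3 / 2) :=
          mul_le_mul_of_nonneg_right hjk hl.le
      _ ≤ log (1 + h) := by
        rw [div_lt_iff₀ hlh] at hn
        rw [one_div, inv_mul_le_iff₀ hn1]
        nlinarith
  obtain ⟨k', rfl⟩ := Int.eq_ofNat_of_zero_le hk0.le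
  have hk1 : 1 ≤ k' := by exact_mod_cast hk0
  have hk1r : (1 : ℝ) ≤ k' := by exact_mod_cast hk1
  have h6l : log (3 / 2) ≤ log 6 := log_le_log (by norm_num) (by norm_num)
  have hj0 : 0 ≤ j := by
    by_contra hcon
    push Not at hcon
    have hj : (j : ℝ) ≤ -1 := by
      have : j ≤ -1 := by omega
      exact_mod_cast this
    have := (abs_le.1 habs).2
    push_cast at this
    nlinarith
  obtain ⟨j', rfl⟩ := Int.eq_ofNat_of_zero_le hj0
  push_cast at habs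
  -- nonvanishing
  have hne : (k' : ℝ) * log 6 - j' * log (3 / 2) ≠ 0 := by
    intro h0
    have e1 : log ((6 : ℝ) ^ k') = log ((3 / 2 : ℝ) ^ j') := by
      rw [log_pow, log_pow]; linarith
    have e2 : (6 : ℝ) ^ k' = (3 / 2 : ℝ) ^ j' :=
      log_injOn_pos (Set.mem_Ioi.2 (by positivity)) (Set.mem_Ioi.2 (by positivity)) e1
    rw [div_pow, eq_div_iff (by positivity)] at e2
    have e3 : 6 ^ k' * 2 ^ j' = 3 ^ j' := by exact_mod_cast e2
    have h5 : Even (6 ^ k' * 2 ^ j') := by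
      apply Even.mul_right
      exact (Nat.even_pow.2 ⟨by decide, by omega⟩)
    rw [e3] at h5
    have h6 : Odd (3 ^ j') := Odd.pow (by decide)
    exact (Nat.not_even_iff_odd.2 h6) h5
  -- conversion from logarithms
  have conv : ∀ A q : ℕ, log (1 + h) ≤ A * log (3 / 2) - q * log 6 →
      A * log (3 / 2) - q * log 6 ≤ 2 * log (1 + h) →
      (1 + h) * 6 ^ q ≤ (3 / 2 : ℝ) ^ A ∧ (3 / 2 : ℝ) ^ A ≤ (1 + 3 * h) * 6 ^ q := by
    intro A q ha hb
    constructor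
    · rw [← log_le_log_iff (by positivity) (by positivity), log_mul (by positivity) (by positivity),
        log_pow, log_pow]
      linarith
    · rw [← log_le_log_iff (by positivity) (by positivity), log_mul (by positivity) (by positivity),
        log_pow, log_pow]
      linarith
  rcases lt_or_gt_of_ne hne with hneg | hpos
  · -- ratio above one
    set ℓ := (j' : ℝ) * log (3 / 2) - k' * log 6 with hℓ
    have hℓ0 : 0 < ℓ := by linarith
    have hℓ1 : ℓ ≤ log (1 + h) := by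
      have := (abs_le.1 habs).1
      linarith
    refine ⟨j' * ⌈log (1 + h) / ℓ⌉₊, k' * ⌈log (1 + h) / ℓ⌉₊, ?_⟩
    have e : (((j' * ⌈log (1 + h) / ℓ⌉₊ : ℕ) : ℝ)) * log (3 / 2) - ((k' * ⌈log (1 + h) / ℓ⌉₊ : ℕ) : ℝ) * log 6
        = ⌈log (1 + h) / ℓ⌉₊ * ℓ := by
      push_cast; rw [hℓ]; ring
    apply conv
    · rw [e]
      have := Nat.le_ceil (log (1 + h) / ℓ)
      rw [div_le_iff₀ hℓ0] at this
      exact this
    · rw [e]
      have h5 := Nat.ceil_lt_add_one (a := log (1 + h) / ℓ) (by positivity)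
      have h6 : (⌈log (1 + h) / ℓ⌉₊ : ℝ) * ℓ < (log (1 + h) / ℓ + 1) * ℓ :=
        mul_lt_mul_of_pos_right h5 hℓ0
      have h7 : (log (1 + h) / ℓ + 1) * ℓ = log (1 + h) + ℓ := by field_simp
      linarith
  · -- ratio below one
    set ℓ := (k' : ℝ) * log 6 - j' * log (3 / 2) with hℓ
    have hℓ1 : ℓ ≤ log (1 + h) := by
      have := (abs_le.1 habs).2
      linarith
    set i := ⌊(log (3 / 2) - log (1 + h)) / ℓ⌋₊ with hi
    have hnn : 0 ≤ (log (3 / 2) - log (1 + h)) / ℓ := by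
      apply div_nonneg <;> linarith
    refine ⟨1 + j' * i, k' * i, ?_⟩
    have e : (((1 + j' * i : ℕ) : ℝ)) * log (3 / 2) - ((k' * i : ℕ) : ℝ) * log 6
        = log (3 / 2) - i * ℓ := by
      push_cast; rw [hℓ]; ring
    apply conv
    · rw [e]
      have := Nat.floor_le hnn
      rw [← hi, le_div_iff₀ hpos] at this
      linarith
    · rw [e]
      have := Nat.lt_floor_add_one ((log (3 / 2) - log (1 + h)) / ℓ)
      rw [← hi, div_lt_iff₀ hpos] at this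
      nlinarith

/-- positions (to the left) at which the word `u` of length `L` never occurs -/
def Bad (β : ℝ) (L u : ℕ) : Set ℕ := {J | ∀ n : ℕ, ⌊(3 / 2 : ℝ) ^ n * β / 6 ^ J⌋₊ % 6 ^ L ≠ u}

/-- normalised leading part -/
theorem exists_theta {β : ℝ} (hβ : 0 < β) {J : ℕ} (hJ : β ≤ 6 ^ J) :
    ∃ n : ℕ, 1 ≤ (3 / 2 : ℝ) ^ n * β / 6 ^ J ∧ (3 / 2 : ℝ) ^ n * β / 6 ^ J ≤ 3 / 2 := by
  have hA : 1 ≤ (6 : ℝ) ^ J / β := by rw [le_div_iff₀ hβ]; linarith
  obtain ⟨N, hN⟩ := pow_unbounded_of_one_lt ((6 : ℝ) ^ J / β) (show (1 : ℝ) < 6 by norm_num)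
  obtain ⟨t, h1, h2, -⟩ := exists_time ((6 : ℝ) ^ J / β) hA N hN.le
  refine ⟨t, ?_, ?_⟩
  · rw [le_div_iff₀ (by positivity)]
    rw [div_le_iff₀ hβ] at h1
    linarith
  · rw [div_le_iff₀ (by positivity)]
    have h3 : 3 / 2 * ((6 : ℝ) ^ J / β) * β = 3 / 2 * 6 ^ J := by field_simp
    calc (3 / 2 : ℝ) ^ t * β ≤ 3 / 2 * ((6 : ℝ) ^ J / β) * β := mul_le_mul_of_nonneg_right h2 hβ.le
      _ = _ := h3

/-- Spacing: positions with nearly the same leading part are sparse. -/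
theorem spaced {β : ℝ} (hβ : 0 < β) (h : ℝ) (h0 : 0 < h) (n : ℕ → ℕ) (E : Finset ℕ)
    (hE1 : ∀ J ∈ E, 1 ≤ (3 / 2 : ℝ) ^ n J * β / 6 ^ J)
    (hE2 : ∀ J ∈ E, ∀ J' ∈ E, (3 / 2 : ℝ) ^ n J * β / 6 ^ J < (3 / 2 : ℝ) ^ n J' * β / 6 ^ J' * (1 + h))
    (A q N : ℕ) (hA1 : (1 + h) * 6 ^ q ≤ (3 / 2 : ℝ) ^ A)
    (hA2 : (3 / 2 : ℝ) ^ A ≤ (1 + 3 * h) * 6 ^ q) (hN : (1 + 3 * h) ^ N ≤ 3 / 2)
    (X : ℕ) (hX : ∀ J ∈ E, J < X) :
    N * E.card ≤ X + N * q := by
  classical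
  -- no two elements differ by `d q` with `0 < d < N`
  have key : ∀ J ∈ E, ∀ J' ∈ E, ∀ d : ℕ, 0 < d → d < N → J ≠ J' + d * q := by
    intro J hJ J' hJ' d hd0 hdN heq
    set θ := (3 / 2 : ℝ) ^ n J * β / 6 ^ J with hθ
    set θ' := (3 / 2 : ℝ) ^ n J' * β / 6 ^ J' with hθ'
    have hθ1 := hE1 J hJ
    have hθ1' := hE1 J' hJ'
    rw [← hθ] at hθ1
    rw [← hθ'] at hθ1'
    set ρ : ℝ := (3 / 2 : ℝ) ^ A / 6 ^ q with hρ
    have h6q : (0 : ℝ) < 6 ^ q := by positivity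
    have hρ1 : 1 + h ≤ ρ := by rw [hρ, le_div_iff₀ h6q]; exact hA1
    have hρ2 : ρ ≤ 1 + 3 * h := by rw [hρ, div_le_iff₀ h6q]; exact hA2
    have hρ0 : 0 < ρ := by linarith
    have hrel : θ * (3 / 2 : ℝ) ^ (n J' + A * d) = θ' * (3 / 2 : ℝ) ^ (n J) * ρ ^ d := by
      have hρd : ρ ^ d = (3 / 2 : ℝ) ^ (A * d) / 6 ^ (q * d) := by
        rw [hρ, div_pow ((3 / 2 : ℝ) ^ A) (6 ^ q) d, ← pow_mul, ← pow_mul]
      have h6J : (6 : ℝ) ^ J = 6 ^ J' * 6 ^ (q * d) := by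
        rw [heq, pow_add, mul_comm d q]
      rw [hρd, hθ, hθ', h6J, pow_add (3 / 2 : ℝ)]
      have : (0 : ℝ) < 6 ^ J' := by positivity
      have : (0 : ℝ) < 6 ^ (q * d) := by positivity
      generalize (3 / 2 : ℝ) ^ n J = a
      generalize (3 / 2 : ℝ) ^ n J' = b
      generalize (3 / 2 : ℝ) ^ (A * d) = c
      field_simp
    rcases le_or_gt (n J' + A * d) (n J) with hle | hgt
    · -- ratio at least ρ
      have h1 : θ' * ρ ^ d ≤ θ := by
        have h2 : (3 / 2 : ℝ) ^ (n J' + A * d) ≤ (3 / 2 : ℝ) ^ (n J) :=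
          pow_le_pow_right₀ (by norm_num) hle
        have h3 : (0 : ℝ) < (3 / 2 : ℝ) ^ (n J' + A * d) := by positivity
        have h4 : θ' * ρ ^ d * (3 / 2 : ℝ) ^ (n J' + A * d) ≤ θ * (3 / 2 : ℝ) ^ (n J' + A * d) := by
          rw [hrel]
          have : 0 ≤ θ' * ρ ^ d := by positivity
          nlinarith
        exact le_of_mul_le_mul_right h4 h3
      have h5 : ρ ≤ ρ ^ d := by
        calc ρ = ρ ^ 1 := (pow_one _).symm
          _ ≤ ρ ^ d := pow_le_pow_right₀ (by linarith) hd0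
      have h6 := hE2 J hJ J' hJ'
      have h7 : θ' * (1 + h) ≤ θ' * ρ ^ d := mul_le_mul_of_nonneg_left (by linarith) (by linarith)
      linarith
    · have h1 : θ * (3 / 2) ≤ θ' * ρ ^ d := by
        have h2 : (3 / 2 : ℝ) ^ (n J + 1) ≤ (3 / 2 : ℝ) ^ (n J' + A * d) :=
          pow_le_pow_right₀ (by norm_num) hgt
        have h3 : (0 : ℝ) < (3 / 2 : ℝ) ^ (n J) := by positivity
        have h4 : θ * (3 / 2) * (3 / 2 : ℝ) ^ (n J) ≤ θ' * ρ ^ d * (3 / 2 : ℝ) ^ (n J) := by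
          calc θ * (3 / 2) * (3 / 2 : ℝ) ^ (n J) = θ * (3 / 2 : ℝ) ^ (n J + 1) := by
                rw [pow_succ]; ring
            _ ≤ θ * (3 / 2 : ℝ) ^ (n J' + A * d) := mul_le_mul_of_nonneg_left h2 (by linarith)
            _ = θ' * ρ ^ d * (3 / 2 : ℝ) ^ (n J) := by rw [hrel]; ring
        exact le_of_mul_le_mul_right h4 h3
      have h2 : θ' < θ * (1 + h) := hE2 J' hJ' J hJ
      have h3 : (1 + h) * ρ ^ d ≤ (1 + 3 * h) ^ N := by
        have h4 : ρ ^ d ≤ (1 + 3 * h) ^ d := pow_le_pow_left₀ hρ0.le hρ2 d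
        calc (1 + h) * ρ ^ d ≤ (1 + 3 * h) * (1 + 3 * h) ^ d :=
              mul_le_mul (by linarith) h4 (by positivity) (by linarith)
          _ = (1 + 3 * h) ^ (d + 1) := by rw [pow_succ]; ring
          _ ≤ (1 + 3 * h) ^ N := pow_le_pow_right₀ (by linarith) hdN
      have h5 : θ' * ρ ^ d < θ * (1 + h) * ρ ^ d := mul_lt_mul_of_pos_right h2 (by positivity)
      have h6 : θ * ((1 + h) * ρ ^ d) ≤ θ * (3 / 2) := mul_le_mul_of_nonneg_left (by linarith) (by linarith)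
      nlinarith
  -- injectivity
  have hinj : Set.InjOn (fun p : ℕ × ℕ => p.2 + p.1 * q) ((Finset.range N ×ˢ E : Finset (ℕ × ℕ)) : Set (ℕ × ℕ)) := by
    rintro ⟨d, J⟩ hp ⟨d', J'⟩ hp' heq
    simp only [Finset.coe_product, Set.mem_prod, Finset.coe_range, Set.mem_Iio, Finset.mem_coe] at hp hp'
    simp only at heq
    rcases lt_trichotomy d d' with hlt | hlt | hlt
    · exfalso
      apply key J hp.2 J' hp'.2 (d' - d) (by omega) (by omega)
      have : d' * q = d * q + (d' - d) * q := by rw [← add_mul]; congr 1; omega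
      omega
    · subst hlt
      have : J = J' := by omega
      rw [this]
    · exfalso
      apply key J' hp'.2 J hp.2 (d - d') (by omega) (by omega)
      have : d * q = d' * q + (d - d') * q := by rw [← add_mul]; congr 1; omega
      omega
  have h1 : (Finset.range N ×ˢ E).card ≤ (Finset.range (X + N * q)).card := by
    apply Finset.card_le_card_of_injOn _ _ hinj
    rintro ⟨d, J⟩ hp
    simp only [Finset.coe_product, Set.mem_prod, Finset.coe_range, Set.mem_Iio, Finset.mem_coe] at hp ⊢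
    have h2 := hX J hp.2
    have h3 : d * q ≤ N * q := Nat.mul_le_mul_right _ hp.1.le
    omega
  rw [Finset.card_product, Finset.card_range, Finset.card_range] at h1
  exact h1

theorem pow_bound (x : ℝ) (hx0 : 0 < x) (N : ℕ) (hN : N * x ≤ 3 / 10) : (1 + x) ^ N ≤ 3 / 2 := by
  rcases Nat.eq_zero_or_pos N with h | h
  · subst h; norm_num
  have hN1 : (1 : ℝ) ≤ N := by exact_mod_cast h
  have hx1 : x ≤ 3 / 10 := by nlinarith
  have h1 : 1 + (N : ℝ) * (-x) ≤ (1 + -x) ^ N := one_add_mul_le_pow (by linarith) N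
  have h2 : (7 : ℝ) / 10 ≤ (1 + -x) ^ N := by linarith
  have h3 : (1 + x) ^ N * (1 + -x) ^ N ≤ 1 := by
    rw [← mul_pow]
    apply pow_le_one₀
    · nlinarith
    · nlinarith
  by_contra hcon
  push Not at hcon
  have : (3 / 2 : ℝ) * (7 / 10) < (1 + x) ^ N * (1 + -x) ^ N := by
    calc (3 / 2 : ℝ) * (7 / 10) < (1 + x) ^ N * (7 / 10) := by linarith
      _ ≤ (1 + x) ^ N * (1 + -x) ^ N := mul_le_mul_of_nonneg_left h2 (by positivity)
  norm_num at this
  linarith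

theorem density {β : ℝ} (hβ : 0 < β) (L u : ℕ) (hu : u < 6 ^ L) (ε : ℝ) (hε : 0 < ε) :
    ∃ X₀ : ℕ, ∀ X ≥ X₀, ((Bad β L u ∩ Set.Iio X).ncard : ℝ) ≤ ε * X := by
  classical
  set Q := 6 ^ L with hQ
  set b := 6 ^ (L + 1) with hb
  have hbQ : 6 * Q ≤ b := by rw [hQ, hb, pow_succ']
  have hQ0 : 0 < Q := by positivity
  have hb6 : 6 ≤ b := by omega
  have hbr : (6 : ℝ) ≤ b := by exact_mod_cast hb6
  have hb0 : (0 : ℝ) < b := by linarith
  -- the level K
  obtain ⟨K, hK20, hKε⟩ : ∃ K : ℕ, (20 : ℝ) ≤ b ^ K ∧ 40 * (((b : ℝ) - 1) / b) ^ K < ε / 2 := by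
    have hq0 : 0 ≤ ((b : ℝ) - 1) / b := div_nonneg (by linarith) hb0.le
    have hq1 : ((b : ℝ) - 1) / b < 1 := by rw [div_lt_one hb0]; linarith
    obtain ⟨K₁, hK₁⟩ := exists_pow_lt_of_lt_one (show 0 < ε / 80 by positivity) hq1
    refine ⟨K₁ + 2, ?_, ?_⟩
    · calc (20 : ℝ) ≤ 6 ^ 2 := by norm_num
        _ ≤ (b : ℝ) ^ 2 := pow_le_pow_left₀ (by norm_num) hbr 2
        _ ≤ (b : ℝ) ^ (K₁ + 2) := pow_le_pow_right₀ (by linarith) (by omega)
    · have : (((b : ℝ) - 1) / b) ^ (K₁ + 2) ≤ (((b : ℝ) - 1) / b) ^ K₁ :=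
        pow_le_pow_of_le_one hq0 hq1.le (by omega)
      linarith
  have hbK0 : (0 : ℝ) < (b : ℝ) ^ K := by positivity
  set h : ℝ := 1 / (b : ℝ) ^ K with hh
  have h0 : 0 < h := by positivity
  have h20 : h ≤ 1 / 20 := one_div_le_one_div_of_le (by norm_num) hK20
  set N := b ^ K / 10 with hN
  have hKnat : 20 ≤ b ^ K := by exact_mod_cast hK20
  have hN1 : b ^ K ≤ 20 * N := by omega
  have hN2 : 10 * N ≤ b ^ K := by omega
  have hN1r : (b : ℝ) ^ K ≤ 20 * N := by exact_mod_cast hN1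
  have hN2r : 10 * (N : ℝ) ≤ (b : ℝ) ^ K := by exact_mod_cast hN2
  have hNpos : 0 < N := by omega
  have hNposr : (0 : ℝ) < N := by exact_mod_cast hNpos
  have hpow : (1 + 3 * h) ^ N ≤ 3 / 2 := by
    apply pow_bound (3 * h) (by positivity)
    rw [hh]
    have : (N : ℝ) * (3 * (1 / (b : ℝ) ^ K)) = 3 * N / b ^ K := by ring
    rw [this, div_le_iff₀ hbK0]
    linarith
  obtain ⟨A, q, hA1, hA2⟩ := exists_ratio h h0 (by linarith)
  -- times
  have htime : ∀ k : ℕ, ∃ t : ℕ, 2 * (Q : ℝ) * (b : ℝ) ^ k ≤ (3 / 2 : ℝ) ^ t ∧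
      (3 / 2 : ℝ) ^ t ≤ 3 / 2 * (2 * (Q : ℝ) * (b : ℝ) ^ k) := by
    intro k
    obtain ⟨t, h1, h2, -⟩ := exists_time (2 * (Q : ℝ) * (b : ℝ) ^ k) (by
      have h1 : (1 : ℝ) ≤ Q := by exact_mod_cast hQ0
      have h2 : (1 : ℝ) ≤ (b : ℝ) ^ k := one_le_pow₀ (by linarith)
      nlinarith) (L + 1 + (L + 1) * k) (by
      have e : (6 : ℝ) ^ (L + 1 + (L + 1) * k) = 6 * ((Q : ℝ) * (b : ℝ) ^ k) := by
        rw [hQ, hb]; push_cast
        rw [← pow_mul, ← pow_add, ← pow_succ']; congr 1; ring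
      rw [e]
      have : (0 : ℝ) < (Q : ℝ) * (b : ℝ) ^ k := by positivity
      linarith)
    exact ⟨t, h1, h2⟩
  choose t ht1 ht2 using htime
  set μ : ℕ → ℝ := fun k => (3 / 2) ^ (t k) with hμ
  have hμb : ∀ k, 2 * (Q : ℝ) * (b : ℝ) ^ k ≤ μ k ∧ μ k ≤ 3 * (Q : ℝ) * (b : ℝ) ^ k := by
    intro k
    exact ⟨ht1 k, by have := ht2 k; simp only [hμ]; linarith⟩
  have hcardS := card_S μ Q u b 2 hu hbQ hμb K
  -- leading parts
  obtain ⟨J₀, hJ₀⟩ := pow_unbounded_of_one_lt β (show (1 : ℝ) < 6 by norm_num)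
  have hth : ∀ J : ℕ, ∃ n : ℕ, J₀ ≤ J → 1 ≤ (3 / 2 : ℝ) ^ n * β / 6 ^ J ∧
      (3 / 2 : ℝ) ^ n * β / 6 ^ J ≤ 3 / 2 := by
    intro J
    by_cases hJ : J₀ ≤ J
    · obtain ⟨n, hn⟩ := exists_theta hβ (J := J)
        (hJ₀.le.trans (pow_le_pow_right₀ (by norm_num) hJ))
      exact ⟨n, fun _ => hn⟩
    · exact ⟨0, fun h => absurd h hJ⟩
  choose n hn using hth
  set C : ℝ := J₀ + 2 * ((b : ℝ) - 1) ^ K * q with hC
  obtain ⟨X₀, hX₀⟩ := exists_nat_gt (2 * C / ε)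
  refine ⟨X₀, fun X hX => ?_⟩
  have hXr : (X₀ : ℝ) ≤ X := by exact_mod_cast hX
  set E : ℕ → Finset ℕ := fun c => (Finset.range X).filter fun J => J₀ ≤ J ∧
    (c : ℝ) ≤ (3 / 2 : ℝ) ^ n J * β / 6 ^ J * b ^ K ∧
    (3 / 2 : ℝ) ^ n J * β / 6 ^ J * b ^ K < c + 1 with hE
  have hEcard : ∀ c, N * (E c).card ≤ X + N * q := by
    intro c
    apply spaced hβ h h0 n (E c) ?_ ?_ A q N hA1 hA2 hpow X ?_
    · intro J hJ
      rw [hE, Finset.mem_filter] at hJ
      exact (hn J hJ.2.1).1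
    · intro J hJ J' hJ'
      rw [hE, Finset.mem_filter] at hJ hJ'
      have h1 := (hn J' hJ'.2.1).1
      have h2 := hJ.2.2.2
      have h3 := hJ'.2.2.1
      set θ := (3 / 2 : ℝ) ^ n J * β / 6 ^ J
      set θ' := (3 / 2 : ℝ) ^ n J' * β / 6 ^ J'
      have h4 : θ < θ' + h := by
        have : θ * b ^ K < (θ' + h) * b ^ K := by
          have e : (θ' + h) * (b : ℝ) ^ K = θ' * b ^ K + 1 := by rw [hh]; field_simp
          rw [e]; linarith
        exact lt_of_mul_lt_mul_right this hbK0.le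
      nlinarith
    · intro J hJ
      rw [hE, Finset.mem_filter, Finset.mem_range] at hJ
      exact hJ.1
  have hEcardr : ∀ c, ((E c).card : ℝ) ≤ 20 * X / (b : ℝ) ^ K + q := by
    intro c
    have h1 : (N : ℝ) * (E c).card ≤ X + N * q := by exact_mod_cast hEcard c
    have h2 : ((E c).card : ℝ) ≤ X / N + q := by
      have e : (X : ℝ) / N + q = (X + N * q) / N := by field_simp
      rw [e, le_div_iff₀ hNposr]; linarith
    have h3 : (X : ℝ) / N ≤ 20 * X / (b : ℝ) ^ K := by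
      rw [div_le_div_iff₀ hNposr hbK0]
      have : (0 : ℝ) ≤ X := by positivity
      nlinarith
    linarith
  have hsub : Bad β L u ∩ Set.Iio X ⊆
      ((Finset.range J₀ ∪ (S μ Q u b 2 K).biUnion E : Finset ℕ) : Set ℕ) := by
    rintro J ⟨hJ, hJX⟩
    simp only [Set.mem_Iio] at hJX
    rw [Finset.coe_union, Set.mem_union, Finset.mem_coe, Finset.mem_coe, Finset.mem_range]
    by_cases hJ0 : J < J₀
    · exact Or.inl hJ0
    right
    push Not at hJ0
    rw [Finset.mem_biUnion]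
    obtain ⟨h1, h2⟩ := hn J hJ0
    set θ := (3 / 2 : ℝ) ^ n J * β / 6 ^ J with hθ
    have hθ0 : 0 ≤ θ * (b : ℝ) ^ K := by positivity
    refine ⟨⌊θ * (b : ℝ) ^ K⌋₊, ?_, ?_⟩
    · simp only [S, Finset.mem_filter, Finset.mem_range]
      refine ⟨?_, θ, Nat.floor_le hθ0, Nat.lt_floor_add_one _, ?_⟩
      · rw [Nat.floor_lt hθ0]
        push_cast
        nlinarith
      · intro i _
        have e : μ i * θ = (3 / 2 : ℝ) ^ (t i + n J) * β / 6 ^ J := by
          rw [hθ, hμ, pow_add]; ring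
        rw [e]
        exact hJ _
    · rw [hE, Finset.mem_filter, Finset.mem_range]
      exact ⟨hJX, hJ0, Nat.floor_le hθ0, Nat.lt_floor_add_one _⟩
  have h1 := Set.ncard_le_ncard hsub (Finset.finite_toSet _)
  rw [Set.ncard_coe_finset] at h1
  have h2 : ((Finset.range J₀ ∪ (S μ Q u b 2 K).biUnion E).card : ℝ)
      ≤ J₀ + (S μ Q u b 2 K).card * (20 * X / (b : ℝ) ^ K + q) := by
    have h3 : (Finset.range J₀ ∪ (S μ Q u b 2 K).biUnion E).card ≤
        J₀ + ∑ c ∈ S μ Q u b 2 K, (E c).card := by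
      refine (Finset.card_union_le _ _).trans ?_
      rw [Finset.card_range]
      exact Nat.add_le_add_left Finset.card_biUnion_le _
    have h4 : ((J₀ + ∑ c ∈ S μ Q u b 2 K, (E c).card : ℕ) : ℝ) ≤
        J₀ + (S μ Q u b 2 K).card * (20 * X / (b : ℝ) ^ K + q) := by
      push_cast
      have h5 : ∑ c ∈ S μ Q u b 2 K, ((E c).card : ℝ) ≤ ∑ _c ∈ S μ Q u b 2 K, (20 * X / (b : ℝ) ^ K + q) :=
        Finset.sum_le_sum fun c _ => hEcardr c
      rw [Finset.sum_const, nsmul_eq_mul] at h5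
      linarith
    exact le_trans (by exact_mod_cast h3) h4
  have h3 : ((S μ Q u b 2 K).card : ℝ) ≤ 2 * ((b : ℝ) - 1) ^ K := by
    have h4 : ((S μ Q u b 2 K).card : ℝ) ≤ ((2 * (b - 1) ^ K : ℕ) : ℝ) := by exact_mod_cast hcardS
    refine h4.trans (le_of_eq ?_)
    push_cast [Nat.cast_sub (show 1 ≤ b by omega)]
    ring
  have h4 : 2 * ((b : ℝ) - 1) ^ K * (20 * X / (b : ℝ) ^ K) = 40 * (((b : ℝ) - 1) / b) ^ K * X := by
    rw [div_pow]; field_simp; ring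
  have hX0 : (0 : ℝ) ≤ X := by positivity
  have hpos : 0 ≤ 20 * (X : ℝ) / (b : ℝ) ^ K + q := by positivity
  have h5 : (((Bad β L u ∩ Set.Iio X).ncard : ℕ) : ℝ) ≤
      J₀ + 2 * ((b : ℝ) - 1) ^ K * (20 * X / (b : ℝ) ^ K + q) := by
    have h6 : (((Bad β L u ∩ Set.Iio X).ncard : ℕ) : ℝ) ≤
        ((Finset.range J₀ ∪ (S μ Q u b 2 K).biUnion E).card : ℝ) := by exact_mod_cast h1
    have h7 := mul_le_mul_of_nonneg_right h3 hpos
    linarith
  have h6 : 40 * (((b : ℝ) - 1) / b) ^ K * X ≤ ε / 2 * X := mul_le_mul_of_nonneg_right hKε.le hX0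
  have h7 : C ≤ ε / 2 * X := by
    rw [div_lt_iff₀ hε] at hX₀
    nlinarith
  have h8 : J₀ + 2 * ((b : ℝ) - 1) ^ K * (20 * X / (b : ℝ) ^ K + q) = C + 40 * (((b : ℝ) - 1) / b) ^ K * X := by
    rw [mul_add, h4, hC]; ring
  rw [h8] at h5
  linarith

end Pool.Agent.H429R2.Left
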