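import Mathlib
import Pool.Agent.H429R2.Gap
import Pool.Agent.H429R2.Auto

set_option autoImplicit false

/-!
# Multiplication by integers, and density in terms of `Full`
-/

namespace Pool.Agent.H429R2.Mult

open Pool.Agent.H429R2.Gap Pool.Agent.H429R2.Auto

/-- density is inherited by integer multiples -/
theorem full_mul {β : ℝ} (hβ : 0 ≤ β) (h : Full β) {q : ℕ} (hq : 0 < q) : Full (q * β) := by
  intro M u hu
  obtain ⟨e, he⟩ : ∃ e : ℕ, 2 * q ≤ 6 ^ e := ⟨2 * q, (Nat.lt_pow_self (by norm_num)).le⟩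
  set R := 6 ^ e with hR
  have hR0 : 0 < R := by positivity
  have hRr : (0 : ℝ) < (R : ℝ) := by exact_mod_cast hR0
  have hqr : (0 : ℝ) < (q : ℝ) := by exact_mod_cast hq
  -- the finer target
  set v := (u * R + q - 1) / q with hv
  have hv1 : u * R ≤ q * v := by
    have := Nat.lt_mul_div_succ (u * R + q - 1) hq
    rw [← hv] at this
    have h2 : q * (v + 1) = q * v + q := by ring
    omega
  have hv2 : q * v ≤ u * R + q - 1 := Nat.mul_div_le _ _
  have hv3 : q * (v + 1) ≤ (u + 1) * R := by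
    have h2 : q * (v + 1) = q * v + q := by ring
    have h3 : (u + 1) * R = u * R + R := by ring
    omega
  have hv4 : v < 6 ^ (2 * (M + e) + 1) := by
    have h1 : v < (u + 1) * R := by
      have : v + 1 ≤ q * (v + 1) := Nat.le_mul_of_pos_left _ hq
      omega
    have h2 : (u + 1) * R ≤ 6 ^ (2 * M + 1) * 6 ^ e := Nat.mul_le_mul hu le_rfl
    rw [← pow_add] at h2
    have h3 : 6 ^ (2 * M + 1 + e) ≤ 6 ^ (2 * (M + e) + 1) :=
      Nat.pow_le_pow_right (by norm_num) (by omega)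
    omega
  obtain ⟨n, hn⟩ := h (M + e) v hv4
  refine ⟨n, ?_⟩
  unfold val at hn ⊢
  set γ : ℝ := (3 / 2) ^ n * β with hγ
  have hγ0 : 0 ≤ γ := by positivity
  have e1 : (6 : ℝ) ^ M * ((3 / 2) ^ n * (q * β)) = q * ((6 : ℝ) ^ (M + e) * γ) / R := by
    rw [hR, pow_add]; push_cast; rw [hγ]; field_simp
  rw [e1]
  set X : ℝ := (6 : ℝ) ^ (M + e) * γ with hX
  have hX0 : 0 ≤ X := by positivity
  set N := ⌊X⌋₊ with hN
  set Z := N / 6 ^ (2 * (M + e) + 1) with hZ
  have hNZ : 6 ^ (2 * (M + e) + 1) * Z + v = N := by rw [← hn]; exact Nat.div_add_mod N _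
  have hNZr : (6 : ℝ) ^ (2 * (M + e) + 1) * Z + v = N := by exact_mod_cast hNZ
  have hXa : (N : ℝ) ≤ X := Nat.floor_le hX0
  have hXb : X < N + 1 := Nat.lt_floor_add_one X
  have hfl : ⌊q * X / R⌋₊ = 6 ^ (2 * M + 1) * (q * 6 ^ e * Z) + u := by
    rw [Nat.floor_eq_iff (by positivity)]
    have e2 : (6 : ℝ) ^ (2 * (M + e) + 1) = 6 ^ (2 * M + 1) * 6 ^ e * R := by
      rw [hR]; push_cast; rw [← pow_add, ← pow_add]; congr 1; omega
    have hv1r : (u : ℝ) * R ≤ q * v := by exact_mod_cast hv1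
    have hv3r : (q : ℝ) * (v + 1) ≤ (u + 1) * R := by exact_mod_cast hv3
    push_cast
    constructor
    · rw [le_div_iff₀ hRr]
      calc ((6 : ℝ) ^ (2 * M + 1) * (q * 6 ^ e * Z) + u) * R
          = q * (6 ^ (2 * M + 1) * 6 ^ e * R * Z) + u * R := by ring
        _ ≤ q * (6 ^ (2 * M + 1) * 6 ^ e * R * Z) + q * v := by linarith
        _ = q * N := by rw [← hNZr, e2]; ring
        _ ≤ q * X := mul_le_mul_of_nonneg_left hXa hqr.le
    · rw [div_lt_iff₀ hRr]
      calc q * X < q * (N + 1) := mul_lt_mul_of_pos_left hXb hqr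
        _ = q * (6 ^ (2 * M + 1) * 6 ^ e * R * Z) + q * (v + 1) := by rw [← hNZr, e2]; ring
        _ ≤ q * (6 ^ (2 * M + 1) * 6 ^ e * R * Z) + (u + 1) * R := by linarith
        _ = _ := by ring
  rw [hfl, Nat.mul_add_mod, Nat.mod_eq_of_lt hu]

/-- counting windows of a multiple -/
theorem card_mul {β : ℝ} (hβ : 0 ≤ β) {q : ℕ} (hq : 0 < q) (M : ℕ) :
    (Set.range (val (q * β) M)).ncard ≤ (Set.range (val β M)).ncard * q := by
  classical
  have hfin := range_finite β M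
  set V := hfin.toFinset with hV
  have hsub : Set.range (val (q * β) M) ⊆
      (((V ×ˢ Finset.range q).image fun p => (q * p.1 + p.2) % 6 ^ (2 * M + 1) : Finset ℕ) : Set ℕ) := by
    rintro _ ⟨n, rfl⟩
    simp only [Finset.coe_image, Set.mem_image, Finset.mem_coe, Finset.mem_product,
      Finset.mem_range, Prod.exists]
    set X : ℝ := (6 : ℝ) ^ M * ((3 / 2) ^ n * β) with hX
    have hX0 : 0 ≤ X := by positivity
    set N := ⌊X⌋₊ with hN
    have hXa : (N : ℝ) ≤ X := Nat.floor_le hX0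
    have hXb : X < N + 1 := Nat.lt_floor_add_one X
    have hqr : (0 : ℝ) < (q : ℝ) := by exact_mod_cast hq
    have h1 : q * N ≤ ⌊q * X⌋₊ := by
      apply Nat.le_floor
      push_cast
      exact mul_le_mul_of_nonneg_left hXa hqr.le
    have h2 : ⌊q * X⌋₊ < q * N + q := by
      rw [Nat.floor_lt (by positivity)]
      push_cast
      calc (q : ℝ) * X < q * (N + 1) := mul_lt_mul_of_pos_left hXb hqr
        _ = q * N + q := by ring
    refine ⟨val β M n, ⌊q * X⌋₊ - q * N, ⟨?_, by omega⟩, ?_⟩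
    · rw [hV, Set.Finite.mem_toFinset]; exact ⟨n, rfl⟩
    · have e1 : (6 : ℝ) ^ M * ((3 / 2) ^ n * (q * β)) = q * X := by rw [hX]; ring
      unfold val
      rw [e1, ← hX, ← hN]
      have h3 : ⌊q * X⌋₊ = q * N + (⌊q * X⌋₊ - q * N) := by omega
      conv_rhs => rw [h3]
      rw [Nat.add_mod, Nat.mul_mod, Nat.mod_mod, ← Nat.mul_mod, ← Nat.add_mod]
  have h1 := Set.ncard_le_ncard hsub (Finset.finite_toSet _)
  rw [Set.ncard_coe_finset] at h1
  refine h1.trans (Finset.card_image_le.trans ?_)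
  rw [Finset.card_product, Finset.card_range, hV, ← Set.ncard_eq_toFinset_card _ hfin]

/-- the windows of a dense orbit -/
theorem card_full {β : ℝ} (h : Full β) (M : ℕ) :
    (Set.range (val β M)).ncard = 6 ^ (2 * M + 1) := by
  have : Set.range (val β M) = ((Finset.range (6 ^ (2 * M + 1)) : Finset ℕ) : Set ℕ) := by
    ext v
    simp only [Set.mem_range, Finset.coe_range, Set.mem_Iio]
    constructor
    · rintro ⟨n, rfl⟩; exact Nat.mod_lt _ (by positivity)
    · intro hv; exact h M v hv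
  rw [this, Set.ncard_coe_finset, Finset.card_range]

theorem exists_M (C δ : ℝ) (hC : 0 < C) (hδ : 0 < δ) :
    ∃ M : ℕ, C * (6 : ℝ) ^ ((1 - δ) * (2 * M + 1)) < 6 ^ (2 * M + 1) := by
  have hl6 : 0 < Real.log 6 := Real.log_pos (by norm_num)
  obtain ⟨M, hM⟩ := exists_nat_gt (Real.log C / (δ * Real.log 6))
  refine ⟨M, ?_⟩
  have h1 : (6 : ℝ) ^ ((1 - δ) * (2 * M + 1)) = 6 ^ (2 * M + 1) * Real.exp (-(δ * Real.log 6 * (2 * M + 1))) := by
    have : (1 - δ) * (2 * (M : ℝ) + 1) = ((2 * M + 1 : ℕ) : ℝ) + (-(δ * (2 * M + 1))) := by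
      push_cast; ring
    rw [this, Real.rpow_add (by norm_num), Real.rpow_natCast, Real.rpow_def_of_pos (by norm_num)]
    congr 2
    ring
  rw [h1]
  have h6 : (0 : ℝ) < 6 ^ (2 * M + 1) := by positivity
  have h2 : C * Real.exp (-(δ * Real.log 6 * (2 * M + 1))) < 1 := by
    rw [← Real.exp_log hC, ← Real.exp_add]
    rw [div_lt_iff₀ (by positivity)] at hM
    apply Real.exp_lt_one_iff.2
    have : 0 ≤ (M : ℝ) := by positivity
    have h3 : 0 < δ * Real.log 6 := by positivity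
    nlinarith
  calc C * (6 ^ (2 * M + 1) * Real.exp (-(δ * Real.log 6 * (2 * M + 1))))
      = 6 ^ (2 * M + 1) * (C * Real.exp (-(δ * Real.log 6 * (2 * M + 1)))) := by ring
    _ < 6 ^ (2 * M + 1) * 1 := mul_lt_mul_of_pos_left h2 h6
    _ = _ := mul_one _

/-- density descends from a multiple -/
theorem full_of_mul {β : ℝ} (hβ : 0 ≤ β) {q : ℕ} (hq : 0 < q) (h : Full (q * β)) : Full β := by
  by_contra hcon
  obtain ⟨δ, hδ, C, hC, hb⟩ := gap hβ hcon
  have hqr : (0 : ℝ) < (q : ℝ) := by exact_mod_cast hq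
  obtain ⟨M, hM⟩ := exists_M (C * q) δ (by positivity) hδ
  have h1 := card_full h M
  have h2 := card_mul hβ hq M
  rw [h1] at h2
  have h3 : ((6 ^ (2 * M + 1) : ℕ) : ℝ) ≤ (((Set.range (val β M)).ncard * q : ℕ) : ℝ) := by
    exact_mod_cast h2
  push_cast at h3
  have h4 := mul_le_mul_of_nonneg_right (hb M) hqr.le
  have h5 : C * (6 : ℝ) ^ ((1 - δ) * (2 * M + 1)) * q = C * q * (6 : ℝ) ^ ((1 - δ) * (2 * M + 1)) := by
    ring
  linarith

/-- All positive rationals of the form `m / 6^k` behave alike. -/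
theorem full_all {m k m' k' : ℕ} (hm : 0 < m) (hm' : 0 < m') (h : Full ((m : ℝ) / 6 ^ k)) :
    Full ((m' : ℝ) / 6 ^ k') := by
  have h1 := full_mul (β := (m : ℝ) / 6 ^ k) (by positivity) h (q := m' * 6 ^ k) (by positivity)
  have e : ((m' * 6 ^ k : ℕ) : ℝ) * ((m : ℝ) / 6 ^ k) = ((m * 6 ^ k' : ℕ) : ℝ) * ((m' : ℝ) / 6 ^ k') := by
    push_cast; field_simp
  rw [e] at h1
  exact full_of_mul (by positivity) (by positivity) h1

/-- Density of the orbit of `x` in the product topology. -/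
theorem dense_iff {x : Conf} {β : ℝ} (hβ : 0 ≤ β) (hx : Rep x β) :
    Dense (orbit x) ↔ Full β := by
  have hlet : ∀ (M n r : ℕ), r < 2 * M + 1 →
      ((F^[n] x ((M : ℤ) - r) : Fin 6) : ℕ) = val β M n / 6 ^ r % 6 := by
    intro M n r hr
    have h1 := letter (rep_iter hβ hx n) (-(M : ℤ)) (2 * M + 1) r hr
    have e1 : -(M : ℤ) + ((2 * M + 1 : ℕ) : ℤ) - 1 = M := by push_cast; ring
    rw [e1, zpow_natCast] at h1
    exact h1
  constructor
  · intro h M u hu
    -- open cylinder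
    set U : Set Conf := {y | ∀ r : ℕ, r < 2 * M + 1 → ((y ((M : ℤ) - r) : Fin 6) : ℕ) = u / 6 ^ r % 6} with hU
    have hUo : IsOpen U := by
      have : U = ⋂ r ∈ Finset.range (2 * M + 1), {y : Conf | ((y ((M : ℤ) - r) : Fin 6) : ℕ) = u / 6 ^ r % 6} := by
        ext y; simp [hU]
      rw [this]
      apply isOpen_biInter_finset
      intro r _
      have hc : Continuous (fun y : Conf => y ((M : ℤ) - r)) := continuous_apply _
      exact (isOpen_discrete {a : Fin 6 | (a : ℕ) = u / 6 ^ r % 6}).preimage hc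
    have hUn : U.Nonempty := by
      refine ⟨fun i => ⟨u / 6 ^ ((M : ℤ) - i).toNat % 6, Nat.mod_lt _ (by norm_num)⟩, ?_⟩
      intro r _
      simp
    obtain ⟨y, hyU, n, rfl⟩ := h.inter_open_nonempty U hUo hUn
    refine ⟨n, ?_⟩
    apply eq_of_digits (2 * M + 1) _ _ (Nat.mod_lt _ (by positivity)) hu
    intro r hr
    exact (hlet M n r hr).symm.trans (hyU r hr)
  · intro h
    rw [dense_iff_inter_open]
    intro U hU ⟨w, hw⟩
    rw [isOpen_pi_iff] at hU
    obtain ⟨I, u, hu1, hu2⟩ := hU w hw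
    obtain ⟨M, hM⟩ : ∃ M : ℕ, ∀ i ∈ I, i.natAbs ≤ M :=
      ⟨I.sup Int.natAbs, fun i hi => Finset.le_sup (f := Int.natAbs) hi⟩
    set g : ℕ → Fin 6 := fun r => w ((M : ℤ) - r) with hg
    obtain ⟨n, hn⟩ := h M (∑ r ∈ Finset.range (2 * M + 1), (g r : ℕ) * 6 ^ r) (sum_lt _ _)
    refine ⟨F^[n] x, ?_, n, rfl⟩
    apply hu2
    intro i hi
    have h1 := hM i hi
    obtain ⟨r, hr⟩ := Int.eq_ofNat_of_zero_le (show (0 : ℤ) ≤ M - i by omega)
    have hr2 : r < 2 * M + 1 := by omega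
    have h2 := hlet M n r hr2
    rw [hn, digits_sum _ g r hr2] at h2
    have h3 : i = (M : ℤ) - r := by omega
    have h4 : F^[n] x i = w i := by
      rw [h3]
      exact Fin.ext h2
    show F^[n] x i ∈ u i
    rw [h4]
    exact (hu1 i hi).2

end Pool.Agent.H429R2.Mult
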