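import Mathlib

set_option autoImplicit false

/-!
# The right end: powers of nine modulo powers of two
-/

namespace Pool.Agent.H429R2.Right

theorem nine_pow (g : ℕ) : ∃ o : ℤ, Odd o ∧ (9 : ℤ) ^ (2 ^ g) = 1 + 2 ^ (g + 3) * o := by
  induction g with
  | zero => exact ⟨1, odd_one, by norm_num⟩
  | succ g ih =>
    obtain ⟨o, ho, h⟩ := ih
    refine ⟨o + 2 * (2 ^ (g + 1) * o ^ 2), ?_, ?_⟩
    · exact ho.add_even (even_two_mul _)
    · rw [pow_succ 2 g, pow_mul, h]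
      ring

theorem lift_one (a : ℤ) (ha : Odd a) (g i : ℕ) (ν : ℤ) (h : (2 : ℤ) ^ (g + 3) ∣ a * 9 ^ i - ν) :
    ∃ b : ℕ, b < 2 ∧ (2 : ℤ) ^ (g + 4) ∣ a * 9 ^ (i + 2 ^ g * b) - ν := by
  obtain ⟨z, hz⟩ := h
  obtain ⟨o, ho, h9⟩ := nine_pow g
  rcases Int.even_or_odd z with hz2 | hz2
  · obtain ⟨y, hy⟩ := hz2
    refine ⟨0, by norm_num, y, ?_⟩
    rw [Nat.mul_zero, Nat.add_zero, hz, hy, pow_succ]
    ring
  · have h1 : Even (z + a * 9 ^ i * o) := by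
      apply hz2.add_odd
      exact (ha.mul (Odd.pow (by decide))).mul ho
    obtain ⟨y, hy⟩ := h1
    refine ⟨1, by norm_num, y, ?_⟩
    rw [Nat.mul_one, pow_add, h9]
    have : a * (9 ^ i * (1 + 2 ^ (g + 3) * o)) - ν = (a * 9 ^ i - ν) + 2 ^ (g + 3) * (a * 9 ^ i * o) := by
      ring
    rw [this, hz, ← mul_add, hy, pow_succ 2 (g + 3)]
    ring

theorem lift (a : ℤ) (ha : Odd a) (g i : ℕ) (ν : ℤ) (h : (2 : ℤ) ^ (g + 3) ∣ a * 9 ^ i - ν)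
    (n : ℕ) : ∃ c : ℕ, c < 2 ^ n ∧ (2 : ℤ) ^ (g + n + 3) ∣ a * 9 ^ (i + 2 ^ g * c) - ν := by
  induction n with
  | zero => exact ⟨0, by norm_num, by simpa using h⟩
  | succ n ih =>
    obtain ⟨c, hc, h1⟩ := ih
    obtain ⟨b, hb, h2⟩ := lift_one a ha (g + n) (i + 2 ^ g * c) ν h1
    refine ⟨c + 2 ^ n * b, ?_, ?_⟩
    · rw [pow_succ]
      have : 2 ^ n * b ≤ 2 ^ n * 1 := Nat.mul_le_mul_left _ (by omega)
      omega
    · have e1 : i + 2 ^ g * c + 2 ^ (g + n) * b = i + 2 ^ g * (c + 2 ^ n * b) := by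
        rw [pow_add]; ring
      rw [e1] at h2
      have e2 : g + (n + 1) + 3 = g + n + 4 := by ring
      rw [e2]
      exact h2

/-- `9^i` modulo `2^(n+3)` depends only on `i` modulo `2^n`. -/
theorem nine_mod (n i j : ℕ) (h : i % 2 ^ n = j % 2 ^ n) :
    (2 : ℤ) ^ (n + 3) ∣ 9 ^ i - 9 ^ j := by
  have key : ∀ i : ℕ, (2 : ℤ) ^ (n + 3) ∣ 9 ^ i - 9 ^ (i % 2 ^ n) := by
    intro i
    obtain ⟨o, _, h9⟩ := nine_pow n
    have e : (9 : ℤ) ^ i = 9 ^ (i % 2 ^ n) * ((9 : ℤ) ^ (2 ^ n)) ^ (i / 2 ^ n) := by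
      rw [← pow_mul, ← pow_add]
      congr 1
      exact (Nat.mod_add_div i _).symm
    have h1 : (2 : ℤ) ^ (n + 3) ∣ ((9 : ℤ) ^ (2 ^ n)) ^ (i / 2 ^ n) - 1 := by
      have h2 : ((9 : ℤ) ^ (2 ^ n)) - 1 ∣ ((9 : ℤ) ^ (2 ^ n)) ^ (i / 2 ^ n) - 1 := by
        simpa using sub_dvd_pow_sub_pow ((9 : ℤ) ^ (2 ^ n)) 1 (i / 2 ^ n)
      refine Dvd.dvd.trans ?_ h2
      rw [h9]
      exact ⟨o, by ring⟩
    have e2 : (9 : ℤ) ^ i - 9 ^ (i % 2 ^ n)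
        = 9 ^ (i % 2 ^ n) * (((9 : ℤ) ^ (2 ^ n)) ^ (i / 2 ^ n) - 1) := by
      rw [mul_sub, mul_one, ← e]
    rw [e2]
    exact Dvd.dvd.mul_left h1 _
  have h1 := key i
  have h2 := key j
  rw [h] at h1
  have := dvd_sub h1 h2
  simpa using this

/-- The bad indices on the right. -/
def Bad (m L u : ℕ) : Set ℕ := {i | ∀ t : ℕ, ⌊(m : ℝ) * 9 ^ i * (3 / 2) ^ t⌋₊ % 6 ^ L ≠ u}

theorem hitR {m L u : ℕ} (hm : 0 < m) (hu : u < 6 ^ L) (r i₀ : ℕ) :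
    ∃ c < 2 ^ (3 * L + 1), ∀ i : ℕ,
      i % 2 ^ ((r + 1) * (3 * L + 1)) = (i₀ + 2 ^ (r * (3 * L + 1)) * c) % 2 ^ ((r + 1) * (3 * L + 1)) →
      i ∉ Bad m L u := by
  obtain ⟨e, m', hm', rfl⟩ := Nat.exists_eq_two_pow_mul_odd hm.ne'
  set s := 3 * L + 1 with hs
  obtain ⟨D, hD⟩ : ∃ D, D + L = (r + 1) * s + 3 := by
    refine ⟨(r + 1) * s + 3 - L, ?_⟩
    have : s ≤ (r + 1) * s := Nat.le_mul_of_pos_left _ (by omega)
    omega
  have hDL : L ≤ D := by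
    have : s ≤ (r + 1) * s := Nat.le_mul_of_pos_left _ (by omega)
    omega
  set a : ℕ := m' * 3 ^ (D + e - L) with ha
  have haodd : Odd a := hm'.mul (Odd.pow (by decide))
  set G := 2 ^ (r * s + 3) with hG
  have hG0 : 0 < G := by positivity
  set u' := (u * 2 ^ D + 3 ^ L - 1) / 3 ^ L with hu'
  have h3 : 0 < 3 ^ L := by positivity
  have hu1 : u * 2 ^ D ≤ 3 ^ L * u' := by
    have := Nat.lt_mul_div_succ (u * 2 ^ D + 3 ^ L - 1) h3
    rw [← hu'] at this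
    have h2 : 3 ^ L * (u' + 1) = 3 ^ L * u' + 3 ^ L := by ring
    omega
  have hu2 : 3 ^ L * u' ≤ u * 2 ^ D + 3 ^ L - 1 := Nat.mul_div_le _ _
  -- the target residue
  set ν0 : ℕ := a * 9 ^ i₀ with hν0
  set w : ℕ := (((ν0 : ℤ) - u') % G).toNat with hw
  have hwnn : 0 ≤ ((ν0 : ℤ) - u') % G := Int.emod_nonneg _ (by positivity)
  have hwlt : ((ν0 : ℤ) - u') % G < G := Int.emod_lt_of_pos _ (by positivity)
  have hwc : (w : ℤ) = ((ν0 : ℤ) - u') % G := Int.toNat_of_nonneg hwnn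
  have hwG : w < G := by
    have : (w : ℤ) < G := by rw [hwc]; exact hwlt
    exact_mod_cast this
  set ν : ℕ := u' + w with hν
  have hνmod : (2 : ℤ) ^ (r * s + 3) ∣ (a : ℤ) * 9 ^ i₀ - (ν : ℤ) := by
    have h1 : (G : ℤ) ∣ ((ν0 : ℤ) - u') - ((ν0 : ℤ) - u') % G := Int.dvd_self_sub_emod
    rw [← hwc] at h1
    have h2 : ((ν0 : ℤ) - u') - (w : ℤ) = (a : ℤ) * 9 ^ i₀ - (ν : ℤ) := by
      rw [hν, hν0]; push_cast; ring
    rw [h2] at h1
    rw [hG] at h1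
    exact_mod_cast h1
  have h6 : 3 ^ L * G ≤ 2 ^ D := by
    have h1 : 2 ^ D * 2 ^ L = 2 ^ (r * s + 3) * 2 ^ s := by
      rw [← pow_add, ← pow_add]; congr 1; rw [hD]; ring
    have h2 : 3 ^ L * 2 ^ L ≤ 2 ^ s := by
      rw [← mul_pow]
      calc (3 * 2) ^ L ≤ 8 ^ L := Nat.pow_le_pow_left (by norm_num) L
        _ = 2 ^ (3 * L) := by rw [pow_mul]; norm_num
        _ ≤ 2 ^ s := Nat.pow_le_pow_right (by norm_num) (by omega)
    have h3 : 0 < 2 ^ L := by positivity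
    have h4 : 3 ^ L * G * 2 ^ L ≤ 2 ^ D * 2 ^ L := by
      rw [h1, hG]
      calc 3 ^ L * 2 ^ (r * s + 3) * 2 ^ L = 2 ^ (r * s + 3) * (3 ^ L * 2 ^ L) := by ring
        _ ≤ 2 ^ (r * s + 3) * 2 ^ s := Nat.mul_le_mul_left _ h2
    exact Nat.le_of_mul_le_mul_right h4 h3
  have hνlo : u * 2 ^ D ≤ 3 ^ L * ν := by
    calc u * 2 ^ D ≤ 3 ^ L * u' := hu1
      _ ≤ 3 ^ L * ν := Nat.mul_le_mul_left _ (by omega)
  have hνhi : 3 ^ L * ν < (u + 1) * 2 ^ D := by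
    have h1 : 3 ^ L * ν = 3 ^ L * u' + 3 ^ L * w := by rw [hν]; ring
    have h2 : 3 ^ L * (w + 1) ≤ 3 ^ L * G := Nat.mul_le_mul_left _ hwG
    have h3' : 3 ^ L * (w + 1) = 3 ^ L * w + 3 ^ L := by ring
    have h4 : (u + 1) * 2 ^ D = u * 2 ^ D + 2 ^ D := by ring
    omega
  have hνlt : ν < 2 ^ (D + L) := by
    have h1 : 3 ^ L * ν < 3 ^ L * 2 ^ (D + L) := by
      calc 3 ^ L * ν < (u + 1) * 2 ^ D := hνhi
        _ ≤ 6 ^ L * 2 ^ D := Nat.mul_le_mul_right _ hu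
        _ = 3 ^ L * 2 ^ (D + L) := by
          rw [show (6 : ℕ) = 3 * 2 by norm_num, mul_pow, pow_add]; ring
    exact Nat.lt_of_mul_lt_mul_left h1
  obtain ⟨c, hc, hlift⟩ := lift (a : ℤ) (by exact_mod_cast haodd) (r * s) i₀ (ν : ℤ) hνmod s
  refine ⟨c, hc, ?_⟩
  intro i hi hbad
  have hexp : r * s + s + 3 = D + L := by rw [hD]; ring
  rw [hexp] at hlift
  have h9 : (2 : ℤ) ^ (D + L) ∣ 9 ^ i - 9 ^ (i₀ + 2 ^ (r * s) * c) := by
    have := nine_mod ((r + 1) * s) i (i₀ + 2 ^ (r * s) * c) hi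
    rw [hD]
    exact this
  have hdvd : (2 : ℤ) ^ (D + L) ∣ (a : ℤ) * 9 ^ i - ν := by
    have h1 : (a : ℤ) * 9 ^ i - ν = a * (9 ^ i - 9 ^ (i₀ + 2 ^ (r * s) * c))
        + (a * 9 ^ (i₀ + 2 ^ (r * s) * c) - ν) := by ring
    rw [h1]
    exact dvd_add (Dvd.dvd.mul_left h9 _) hlift
  have hmod : (a * 9 ^ i) % 2 ^ (D + L) = ν := by
    have h1 : (a * 9 ^ i) ≡ ν [MOD 2 ^ (D + L)] := by
      rw [Nat.modEq_iff_dvd]
      have : ((ν : ℕ) : ℤ) - ((a * 9 ^ i : ℕ) : ℤ) = -((a : ℤ) * 9 ^ i - ν) := by push_cast; ring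
      rw [this]
      push_cast
      exact (dvd_neg).2 hdvd
    rw [Nat.ModEq, Nat.mod_eq_of_lt hνlt] at h1
    exact h1
  apply hbad (D + e)
  -- the floor
  have e1 : ((2 ^ e * m' : ℕ) : ℝ) * 9 ^ i * (3 / 2) ^ (D + e) = ((3 ^ L * (a * 9 ^ i) : ℕ) : ℝ) / ((2 ^ D : ℕ) : ℝ) := by
    rw [ha]
    push_cast
    have : (3 : ℝ) ^ (D + e) = 3 ^ L * 3 ^ (D + e - L) := by rw [← pow_add]; congr 1; omega
    rw [div_pow, this, pow_add 2 D e]
    field_simp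
  rw [e1, Nat.floor_div_eq_div]
  have hdm := Nat.div_add_mod (a * 9 ^ i) (2 ^ (D + L))
  rw [hmod] at hdm
  set z := a * 9 ^ i / 2 ^ (D + L) with hz
  have e2 : 3 ^ L * (a * 9 ^ i) = 3 ^ L * ν + 2 ^ D * (6 ^ L * z) := by
    rw [← hdm, show (6 : ℕ) = 3 * 2 by norm_num, mul_pow, pow_add]; ring
  rw [e2, Nat.add_mul_div_left _ _ (by positivity)]
  have e3 : 3 ^ L * ν / 2 ^ D = u := by
    apply Nat.div_eq_of_lt_le
    · exact hνlo
    · exact hνhi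
  rw [e3, Nat.add_mul_mod_self_left, Nat.mod_eq_of_lt hu]

open Classical in
/-- residues modulo `2^(K s)` of bad indices -/
noncomputable def R (m L u K : ℕ) : Finset ℕ :=
  (Finset.range (2 ^ (K * (3 * L + 1)))).filter fun ρ => ∃ i ∈ Bad m L u, i % 2 ^ (K * (3 * L + 1)) = ρ

theorem card_R {m L u : ℕ} (hm : 0 < m) (hu : u < 6 ^ L) (K : ℕ) :
    (R m L u K).card ≤ (2 ^ (3 * L + 1) - 1) ^ K := by
  classical
  set s := 3 * L + 1 with hs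
  induction K with
  | zero =>
    refine (Finset.card_filter_le _ _).trans ?_
    simp
  | succ K ih =>
    have hh := fun i₀ => hitR (m := m) (L := L) (u := u) hm hu K i₀
    rw [← hs] at hh
    choose c hc1 hc2 using hh
    have hpos : 0 < 2 ^ (K * s) := by positivity
    have hpow : 2 ^ ((K + 1) * s) = 2 ^ (K * s) * 2 ^ s := by rw [← pow_add]; congr 1; ring
    have hmap : ∀ ρ ∈ R m L u (K + 1), ρ % 2 ^ (K * s) ∈ R m L u K ∧
        ρ / 2 ^ (K * s) < 2 ^ s ∧ ρ / 2 ^ (K * s) ≠ c (ρ % 2 ^ (K * s)) := by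
      intro ρ hρ
      simp only [R, Finset.mem_filter, Finset.mem_range] at hρ ⊢
      obtain ⟨h1, i, hi, hiρ⟩ := hρ
      rw [← hs] at h1 hiρ
      refine ⟨⟨Nat.mod_lt _ hpos, i, hi, ?_⟩, ?_, ?_⟩
      · rw [← hiρ, hpow, Nat.mod_mul_right_mod]
      · rw [Nat.div_lt_iff_lt_mul hpos, mul_comm, ← hpow]; exact h1
      · intro heq
        refine hc2 (ρ % 2 ^ (K * s)) i ?_ hi
        rw [← heq, Nat.mod_add_div, hiρ, Nat.mod_eq_of_lt h1]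
    have h1 : (R m L u (K + 1)).card ≤ (2 ^ s - 1) * ((R m L u (K + 1)).image (· % 2 ^ (K * s))).card := by
      apply Finset.card_le_mul_card_image
      intro ρ₀ _
      have h2 : ((R m L u (K + 1)).filter (fun x => x % 2 ^ (K * s) = ρ₀)) ⊆
          ((Finset.range (2 ^ s)).erase (c ρ₀)).image (fun q => ρ₀ + 2 ^ (K * s) * q) := by
        intro ρ hρ
        rw [Finset.mem_filter] at hρ
        obtain ⟨hρ1, hρ2⟩ := hρ
        obtain ⟨-, h4, h5⟩ := hmap ρ hρ1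
        simp only [Finset.mem_image, Finset.mem_erase, Finset.mem_range]
        refine ⟨ρ / 2 ^ (K * s), ⟨?_, h4⟩, ?_⟩
        · rw [← hρ2]; exact h5
        · rw [← hρ2]; exact Nat.mod_add_div ρ _
      refine (Finset.card_le_card h2).trans (Finset.card_image_le.trans ?_)
      rw [Finset.card_erase_of_mem (Finset.mem_range.2 (hc1 ρ₀)), Finset.card_range]
    have h3 : ((R m L u (K + 1)).image (· % 2 ^ (K * s))) ⊆ R m L u K := by
      intro a ha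
      rw [Finset.mem_image] at ha
      obtain ⟨ρ, hρ, rfl⟩ := ha
      exact (hmap ρ hρ).1
    calc (R m L u (K + 1)).card ≤ (2 ^ s - 1) * ((R m L u (K + 1)).image (· % 2 ^ (K * s))).card := h1
      _ ≤ (2 ^ s - 1) * (R m L u K).card := Nat.mul_le_mul_left _ (Finset.card_le_card h3)
      _ ≤ (2 ^ s - 1) * (2 ^ s - 1) ^ K := Nat.mul_le_mul_left _ ih
      _ = (2 ^ s - 1) ^ (K + 1) := by rw [pow_succ]; ring

/-- Power-saving count of bad indices below `X`. -/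
theorem count {m L u : ℕ} (hm : 0 < m) (hu : u < 6 ^ L) (X K : ℕ) (hX : X ≤ 2 ^ (K * (3 * L + 1))) :
    (Bad m L u ∩ Set.Iio X).ncard ≤ (2 ^ (3 * L + 1) - 1) ^ K := by
  classical
  have hsub : Bad m L u ∩ Set.Iio X ⊆ ((R m L u K : Finset ℕ) : Set ℕ) := by
    rintro i ⟨hi, hiX⟩
    simp only [Set.mem_Iio] at hiX
    simp only [R, Finset.coe_filter, Finset.mem_range, Set.mem_ofPred_eq]
    exact ⟨by omega, i, hi, Nat.mod_eq_of_lt (by omega)⟩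
  have := Set.ncard_le_ncard hsub (Finset.finite_toSet _)
  rw [Set.ncard_coe_finset] at this
  exact this.trans (card_R hm hu K)

end Pool.Agent.H429R2.Right
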